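import Mathlib

/-!
# Hasse-Witt matrices of Laurent polynomials and monomial specializations
-/

set_option autoImplicit false
set_option linter.all false

open MvPolynomial

namespace Pool.Agent.U8.TR

variable {σ : Type*}

/-- The Hasse-Witt matrix of `F` with respect to the set `I` of exponents: the coefficients of
`x^(p u - v)` in `F^(p-1)`. -/
noncomputable def hw {R : Type*} [CommRing R] (p : ℕ) (I : Finset (σ →₀ ℕ)) (F : MvPolynomial σ R) :
    Matrix I I R :=
  Matrix.of fun u v => coeff (p • (u : σ →₀ ℕ)) (monomial (v : σ →₀ ℕ) 1 * F ^ (p - 1))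

/-- the rescaled Hasse-Witt matrix -/
noncomputable def mm {R : Type*} [CommRing R] (p : ℕ) (I : Finset (σ →₀ ℕ))
    (G : I → MvPolynomial σ R) : Matrix I I R :=
  Matrix.of fun u v => coeff (v : σ →₀ ℕ) (G u) *
    coeff (p • (u : σ →₀ ℕ)) (monomial (v : σ →₀ ℕ) 1 * G u ^ (p - 1))

lemma hw_map {R S : Type*} [CommRing R] [CommRing S] (f : R →+* S) (p : ℕ) (I : Finset (σ →₀ ℕ))
    (F : MvPolynomial σ R) : hw p I (map f F) = (hw p I F).map f := by
  ext u v
  simp only [hw, Matrix.of_apply, Matrix.map_apply]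
  rw [← coeff_map, map_mul, map_pow, map_monomial, f.map_one]

lemma hw_det_map [DecidableEq σ] {R S : Type*} [CommRing R] [CommRing S] (f : R →+* S) (p : ℕ)
    (I : Finset (σ →₀ ℕ)) (F : MvPolynomial σ R) :
    (hw p I (map f F)).det = f (hw p I F).det := by
  rw [hw_map]
  exact (RingHom.map_det f _).symm

lemma mm_map {R S : Type*} [CommRing R] [CommRing S] (f : R →+* S) (p : ℕ) (I : Finset (σ →₀ ℕ))
    (G : I → MvPolynomial σ R) : mm p I (fun u => map f (G u)) = (mm p I G).map f := by
  ext u v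
  simp only [mm, Matrix.of_apply, Matrix.map_apply]
  rw [map_mul f, ← coeff_map, ← coeff_map f (monomial _ _ * _), map_mul, map_pow, map_monomial,
    f.map_one]

lemma mm_det_map [DecidableEq σ] {R S : Type*} [CommRing R] [CommRing S] (f : R →+* S) (p : ℕ)
    (I : Finset (σ →₀ ℕ)) (G : I → MvPolynomial σ R) :
    (mm p I fun u => map f (G u)).det = f (mm p I G).det := by
  rw [mm_map]
  exact (RingHom.map_det f _).symm

/-- the rescaling `x_i ↦ τ_i x_i` -/
noncomputable def scale {R : Type*} [CommRing R] (τ : σ → R) :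
    MvPolynomial σ R →ₐ[R] MvPolynomial σ R :=
  aeval fun i => C (τ i) * X i

lemma scale_monomial {R : Type*} [CommRing R] (τ : σ → R) (a : σ →₀ ℕ) (c : R) :
    scale τ (monomial a c) = monomial a ((a.prod fun i e => τ i ^ e) * c) := by
  rw [scale, aeval_monomial, MvPolynomial.algebraMap_eq]
  have h : (a.prod fun i e => (C (τ i) * X i : MvPolynomial σ R) ^ e) =
      C (a.prod fun i e => τ i ^ e) * a.prod fun i e => (X i : MvPolynomial σ R) ^ e := by
    simp [Finsupp.prod, map_prod, mul_pow, Finset.prod_mul_distrib]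
  rw [h, monomial_eq, map_mul]
  ring

lemma prod_smul {R : Type*} [CommRing R] (τ : σ → R) (w : σ →₀ ℕ) (q : ℕ) :
    ((q • w).prod fun i e => τ i ^ e) = (w.prod fun i e => τ i ^ e) ^ q := by
  induction q with
  | zero => simp
  | succ q ih =>
    rw [add_smul, one_smul, Finsupp.prod_add_index' (by simp) (fun i a b => pow_add _ _ _), ih,
      pow_succ]

lemma coeff_scale {R : Type*} [CommRing R] (τ : σ → R) (F : MvPolynomial σ R) (a : σ →₀ ℕ) :
    coeff a (scale τ F) = (a.prod fun i e => τ i ^ e) * coeff a F := by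
  classical
  induction F using MvPolynomial.induction_on' with
  | add p q hp hq => rw [map_add, coeff_add, coeff_add, hp, hq, mul_add]
  | monomial b c =>
    rw [scale_monomial, coeff_monomial, coeff_monomial]
    by_cases h : b = a
    · rw [if_pos h, if_pos h, h]
    · rw [if_neg h, if_neg h, mul_zero]

lemma scale_map {R S : Type*} [CommRing R] [CommRing S] (f : R →+* S) (τ : σ → R)
    (F : MvPolynomial σ R) :
    scale (fun i => f (τ i)) (map f F) = map f (scale τ F) := by
  ext a
  rw [coeff_scale, coeff_map, coeff_map, coeff_scale, map_mul]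
  congr 1
  simp [Finsupp.prod, map_prod]

/-- the relation of the rescaled matrix and the Hasse-Witt matrix -/
lemma mm_eq [DecidableEq σ] {R : Type*} [CommRing R] {p : ℕ} (hp : 0 < p) (I : Finset (σ →₀ ℕ))
    (F : MvPolynomial σ R)
    (G : I → MvPolynomial σ R) (μ : I → R) (τ : I → σ → R)
    (hG : ∀ u, G u = C (μ u) * scale (τ u) F) :
    mm p I G = Matrix.diagonal (fun u : I => (μ u * (u : σ →₀ ℕ).prod fun i e => τ u i ^ e) ^ p) *
      hw p I F * Matrix.diagonal (fun v : I => coeff (v : σ →₀ ℕ) F) := by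
  ext u v
  rw [Matrix.mul_diagonal, Matrix.diagonal_mul]
  simp only [mm, hw, Matrix.of_apply]
  obtain ⟨q, rfl⟩ : ∃ q, p = q + 1 := ⟨p - 1, by omega⟩
  simp only [Nat.add_sub_cancel]
  set w : σ →₀ ℕ := (u : σ →₀ ℕ) with hw
  set z : σ →₀ ℕ := (v : σ →₀ ℕ) with hz
  have h1 : (z.prod fun i e => τ u i ^ e) * coeff ((q + 1) • w) (monomial z 1 * G u ^ q) =
      μ u ^ q * ((w.prod fun i e => τ u i ^ e) ^ (q + 1) *
        coeff ((q + 1) • w) (monomial z 1 * F ^ q)) := by
    have h2 : (((q + 1) • w).prod fun i e => τ u i ^ e) = (w.prod fun i e => τ u i ^ e) ^ (q + 1) := by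
      exact prod_smul _ _ _
    rw [← h2, ← coeff_scale, map_mul, map_pow, scale_monomial, mul_one, hG u, mul_pow, ← map_pow,
      ← coeff_C_mul, ← coeff_C_mul]
    congr 1
    have h3 : (monomial z (z.prod fun i e => τ u i ^ e) : MvPolynomial σ R) =
        C (z.prod fun i e => τ u i ^ e) * monomial z 1 := by
      rw [C_mul_monomial, mul_one]
    rw [h3]
    ring
  have h4 : coeff z (G u) = μ u * ((z.prod fun i e => τ u i ^ e) * coeff z F) := by
    rw [hG u, coeff_C_mul, coeff_scale]
  rw [h4]
  calc μ u * ((z.prod fun i e => τ u i ^ e) * coeff z F) *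
        coeff ((q + 1) • w) (monomial z 1 * G u ^ q)
      = μ u * coeff z F * ((z.prod fun i e => τ u i ^ e) *
        coeff ((q + 1) • w) (monomial z 1 * G u ^ q)) := by ring
    _ = _ := by rw [h1]; ring

/-- the rescaled matrix of monomials -/
lemma mm_monomial [DecidableEq σ] {R : Type*} [CommRing R] {p : ℕ} (hp : 0 < p)
    (I : Finset (σ →₀ ℕ)) (G : I → MvPolynomial σ R) (γ : I → R)
    (hG : ∀ u, G u = monomial (u : σ →₀ ℕ) (γ u)) :
    mm p I G = Matrix.diagonal fun u => γ u ^ p := by
  classical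
  ext u v
  rw [Matrix.diagonal_apply]
  simp only [mm, Matrix.of_apply]
  obtain ⟨q, rfl⟩ : ∃ q, p = q + 1 := ⟨p - 1, by omega⟩
  simp only [Nat.add_sub_cancel]
  rw [hG u, coeff_monomial]
  by_cases h : u = v
  · subst h
    rw [if_pos rfl, if_pos rfl, monomial_pow, monomial_mul, coeff_monomial, if_pos, one_mul,
      pow_succ, mul_comm]
    rw [add_smul, one_smul, add_comm]
  · rw [if_neg h, if_neg (fun h' => h (Subtype.ext h')), zero_mul]

end Pool.Agent.U8.TR
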