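import Mathlib

set_option autoImplicit false
set_option linter.all false

namespace Pool.Agent.U8.TR

/-- a matrix which is block triangular with respect to an inclusion of sets -/
lemma det_ne_of_blocks {E α L : Type*} [DecidableEq E] [DecidableEq α] [Field L] (I : Finset E)
    (M : E → E → L) (V : E → Finset α) (hM : ∀ u ∈ I, ∀ v ∈ I, M u v ≠ 0 → V v ⊆ V u)
    (hdet : ∀ u ∈ I, (Matrix.of fun w v : ↥(I.filter fun w => V w = V u) => M w v).det ≠ 0) :
    (Matrix.of fun w v : ↥I => M w v).det ≠ 0 := by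
  classical
  intro h0
  obtain ⟨x, hx, hMx⟩ := Matrix.exists_mulVec_eq_zero_iff.2 h0
  -- a vector on `I` with minimal support set
  obtain ⟨u₀, hu₀⟩ : ∃ u, x u ≠ 0 := by
    by_contra hne
    push Not at hne
    exact hx (funext hne)
  obtain ⟨u, hu, hmin⟩ := Finset.exists_min_image (Finset.univ.filter fun u => x u ≠ 0)
    (fun u => (V (u : E)).card) ⟨u₀, by simpa using hu₀⟩
  have hxu : x u ≠ 0 := by simpa using hu
  apply hdet u u.2
  rw [← Matrix.exists_mulVec_eq_zero_iff]
  have hmem : ∀ w : ↥(I.filter fun w => V w = V (u : E)), (w : E) ∈ I := fun w =>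
    (Finset.mem_filter.1 w.2).1
  refine ⟨fun w => x ⟨w, hmem w⟩, ?_, ?_⟩
  · intro h1
    apply hxu
    have := congrFun h1 ⟨u, Finset.mem_filter.2 ⟨u.2, rfl⟩⟩
    exact this
  · ext w
    have h1 := congrFun hMx ⟨w, hmem w⟩
    rw [Matrix.mulVec, dotProduct] at h1 ⊢
    rw [Pi.zero_apply] at h1 ⊢
    rw [← h1]
    have h2 : ∑ v : ↥I, (if V (v : E) = V (u : E) then M w v * x v else 0) =
        ∑ v : ↥I, M w v * x v := by
      refine Finset.sum_congr rfl fun v _ => ?_
      by_cases hv : V (v : E) = V (u : E)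
      · rw [if_pos hv]
      · rw [if_neg hv]
        by_cases hMv : M w v = 0
        · rw [hMv, zero_mul]
        · by_cases hxv : x v = 0
          · rw [hxv, mul_zero]
          · exfalso
            have h3 := hM w (hmem w) v v.2 hMv
            rw [(Finset.mem_filter.1 w.2).2] at h3
            have h4 := hmin v (by simpa using hxv)
            exact hv (Finset.eq_of_subset_of_card_le h3 h4)
    change ∑ v : ↥(I.filter fun w => V w = V (u : E)), M w v * x ⟨v, hmem v⟩ = _
    rw [show (∑ j : ↥I, (Matrix.of fun w v : ↥I => M w v) ⟨w, hmem w⟩ j * x j) =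
      ∑ v : ↥I, M w v * x v from rfl, ← h2]
    rw [← Finset.sum_filter]
    refine Finset.sum_bij (fun (v : ↥(I.filter fun w => V w = V (u : E))) _ => (⟨v, hmem v⟩ : ↥I))
      (fun v _ => ?_) (fun v _ w _ h => ?_) (fun v hv => ?_) (fun v _ => rfl)
    · rw [Finset.mem_filter]
      exact ⟨Finset.mem_univ _, (Finset.mem_filter.1 v.2).2⟩
    · exact Subtype.ext (congrArg (fun z : ↥I => (z : E)) h)
    · rw [Finset.mem_filter] at hv
      exact ⟨⟨v, Finset.mem_filter.2 ⟨v.2, hv.2⟩⟩, Finset.mem_univ _, rfl⟩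

end Pool.Agent.U8.TR
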