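import Pool.Agent.U8.TR.Fam2

set_option autoImplicit false
set_option linter.all false

namespace Pool.Agent.U8.TR

open MvPolynomial

/-- dense ordinary reduction descends along field extensions -/
theorem DO_of_ext {K L : Type*} [Field K] [Field L] (j : K →+* L) {ι : Type*} (S : Set ℕ)
    (m : ι → ℕ) (I : ∀ c, Finset (Fin (m c) →₀ ℕ)) (f : ∀ c, MvPolynomial (Fin (m c)) K)
    (h : DO S m I fun c => map j (f c)) : DO S m I f := by
  classical
  intro A hA F hF a ha
  let j' : K →ₐ[ℤ] L := j.toIntAlgHom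
  have hj : Function.Injective j := j.injective
  let A' : Subalgebra ℤ L := A.map j'
  have hA' : A'.FG := hA.map j'
  let e : A →+* A' := ((j'.comp A.val).codRestrict A' fun x =>
    Subalgebra.mem_map.2 ⟨x.1, x.2, rfl⟩).toRingHom
  have he : Function.Injective e := by
    intro x y hxy
    have h1 : j (x : K) = j (y : K) := congrArg (fun z : A' => (z : L)) hxy
    exact Subtype.ext (hj h1)
  have hes : Function.Surjective e := by
    rintro ⟨y, hy⟩
    obtain ⟨x, hx, rfl⟩ := Subalgebra.mem_map.1 hy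
    exact ⟨⟨x, hx⟩, rfl⟩
  have hcomp : (algebraMap A' L).comp e = j.comp (algebraMap A K) := rfl
  obtain ⟨N, hN⟩ := h A' hA' (fun c => map e (F c)) (fun c => by
    rw [map_map, hcomp, ← map_map, hF c]) (e a) (by rwa [Ne, map_eq_zero_iff _ he])
  refine ⟨N, fun p hpS hp hNp => ?_⟩
  obtain ⟨M, hM, hpM, haM, hdet⟩ := hN p hpS hp hNp
  refine ⟨M.comap e, Ideal.comap_isMaximal_of_surjective e hes, ?_, haM, fun c hc => hdet c ?_⟩
  · change e (p : A) ∈ M
    rwa [map_natCast]
  · rw [hw_det_map] at hc ⊢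
    rw [hw_det_map]
    have h3 : (hw p (I c) (F c)).det ∈ M.comap e := Ideal.Quotient.eq_zero_iff_mem.1 hc
    exact Ideal.Quotient.eq_zero_iff_mem.2 h3

theorem family3 {K κ : Type*} [Field K] [Field κ] [CharZero κ] [Algebra κ K]
    (t : K) (ht : Transcendental κ t) {ι : Type*} [Fintype ι] {D : ℕ} (hD : 0 < D) (m : ι → ℕ)
    (I : ∀ c, Finset (Fin (m c) →₀ ℕ)) (P : ∀ c, MvPolynomial (Fin (m c)) (Polynomial κ))
    (h : ∀ c, ∀ u ∈ I c, ∃ (N : ℕ) (l : Fin (m c) → ℤ) (w : ℤ), 0 < N ∧
      (∀ a ∈ (P c).support, N * ((coeff a (P c)).natDegree : ℤ) + dotp l a ≤ w) ∧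
      AffInd (cell (P c) N l w) ∧ RelInt D (cell (P c) N l w) u) :
    DO {p | p % D = 1 % D} m I
      (fun c => map (Polynomial.aeval t : Polynomial κ →ₐ[κ] K).toRingHom (P c)) := by
  apply DO_of_ext (algebraMap K (AlgebraicClosure K))
  have ht' : Transcendental κ (algebraMap K (AlgebraicClosure K) t) :=
    (transcendental_algebraMap_iff (FaithfulSMul.algebraMap_injective _ _)).2 ht
  have h1 := family2 (algebraMap K (AlgebraicClosure K) t) ht' hD m I P h
  have h2 : ∀ c, map (algebraMap K (AlgebraicClosure K))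
      (map (Polynomial.aeval t : Polynomial κ →ₐ[κ] K).toRingHom (P c)) =
      map (Polynomial.aeval (algebraMap K (AlgebraicClosure K) t) :
        Polynomial κ →ₐ[κ] AlgebraicClosure K).toRingHom (P c) := by
    intro c
    rw [map_map]
    have h3 : (algebraMap K (AlgebraicClosure K)).comp
        (Polynomial.aeval t : Polynomial κ →ₐ[κ] K).toRingHom =
        (Polynomial.aeval (algebraMap K (AlgebraicClosure K) t) :
          Polynomial κ →ₐ[κ] AlgebraicClosure K).toRingHom := by
      refine RingHom.ext fun q => ?_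
      change algebraMap K (AlgebraicClosure K) (Polynomial.aeval t q) =
        Polynomial.aeval (algebraMap K (AlgebraicClosure K) t) q
      rw [Polynomial.aeval_algebraMap_apply]
    rw [h3]
  simp only [h2]
  exact h1

end Pool.Agent.U8.TR
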