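import Pool.Agent.U8.TR.Main

set_option autoImplicit false
set_option linter.all false

open MvPolynomial

namespace Pool.Agent.U8.TR

/-- the pairing of an integral vector with an exponent -/
def dot {m : ℕ} (l : Fin m → ℤ) (a : Fin m →₀ ℕ) : ℤ := ∑ i, l i * (a i : ℤ)

lemma prod_zpow {k : Type*} [Field k] {t : k} (ht : t ≠ 0) {m : ℕ} (l : Fin m → ℤ)
    (a : Fin m →₀ ℕ) : (a.prod fun i e => (t ^ (-(l i))) ^ e) = t ^ (-(dot l a)) := by
  rw [Finsupp.prod_fintype _ _ (fun i => by simp), dot, ← Finset.sum_neg_distrib]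
  have h : ∀ s : Finset (Fin m), ∏ i ∈ s, (t ^ (-(l i))) ^ (a i) = t ^ (∑ i ∈ s, -(l i * (a i : ℤ))) := by
    intro s
    induction s using Finset.induction_on with
    | empty => simp
    | insert i s hi ih =>
      rw [Finset.prod_insert hi, Finset.sum_insert hi, ih, zpow_add₀ ht]
      congr 1
      rw [← zpow_natCast, ← zpow_mul, neg_mul]
  exact h _

theorem family {k κ : Type*} [Field k] [CharZero k] [Field κ] [CharZero κ] [Algebra κ k]
    {ι : Type*} [Fintype ι] (m : ι → ℕ) (t : k) (ht : Transcendental κ t)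
    (I : ∀ c, Finset (Fin (m c) →₀ ℕ)) (Φ : ∀ c, MvPolynomial (Fin (m c)) κ)
    (b : ∀ c, (Fin (m c) →₀ ℕ) → κ) (e : ∀ c, (Fin (m c) →₀ ℕ) → ℕ)
    (hb : ∀ c, ∀ u ∈ I c, b c u ≠ 0)
    (he : ∀ c, ∀ u ∈ I c, ∃ l : Fin (m c) → ℤ,
      (∀ v ∈ I c, v ≠ u → (e c v : ℤ) < e c u + (dot l v - dot l u)) ∧
      ∀ a ∈ (Φ c).support, 0 < e c u + (dot l a - dot l u))
    (A : Subalgebra ℤ k) (hA : A.FG) (F : ∀ c, MvPolynomial (Fin (m c)) A)
    (hF : ∀ c, map (algebraMap A k) (F c) = map (algebraMap κ k) (Φ c) +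
      ∑ u ∈ I c, monomial u (algebraMap κ k (b c u) * t ^ e c u))
    (a : A) (ha : a ≠ 0) :
    ∃ N : ℕ, ∀ p : ℕ, N ≤ p → p.Prime → ∃ M : Ideal A, M.IsMaximal ∧ (p : A) ∈ M ∧ a ∉ M ∧
      ∀ c, (hw p (I c) (map (Ideal.Quotient.mk M) (F c))).det ≠ 0 := by
  classical
  have ht0 : t ≠ 0 := by
    rintro rfl
    exact ht isAlgebraic_zero
  have hs : Transcendental κ t⁻¹ := by
    intro h
    exact ht (by simpa using h.inv)
  have hinj : Function.Injective (Polynomial.aeval t⁻¹ : Polynomial κ →ₐ[κ] k) :=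
    transcendental_iff_injective.1 hs
  let R : Subalgebra κ k := (Polynomial.aeval t⁻¹ : Polynomial κ →ₐ[κ] k).range
  let eqv : Polynomial κ ≃ₐ[κ] R := AlgEquiv.ofInjective _ hinj
  let O : Subring k := R.toSubring
  let q : Polynomial κ →+* O := (eqv : Polynomial κ →+* R)
  let θ : O →+* κ := (Polynomial.evalRingHom 0).comp (eqv.symm : R →+* Polynomial κ)
  have hθ : θ.comp q = Polynomial.evalRingHom 0 := by
    ext x
    · change Polynomial.eval 0 (eqv.symm (eqv (Polynomial.C x))) = _
      rw [AlgEquiv.symm_apply_apply]; rfl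
    · change Polynomial.eval 0 (eqv.symm (eqv Polynomial.X)) = _
      rw [AlgEquiv.symm_apply_apply]; rfl
  have hq1 : (O.subtype.comp q).comp Polynomial.C = algebraMap κ k := by
    ext x
    change Polynomial.aeval t⁻¹ (Polynomial.C x) = _
    simp
  have hq2 : ∀ (x : κ) (n : ℕ), (O.subtype.comp q) (Polynomial.C x * Polynomial.X ^ n) =
      algebraMap κ k x * t⁻¹ ^ n := by
    intro x n
    change Polynomial.aeval t⁻¹ (Polynomial.C x * Polynomial.X ^ n) = _
    simp
  refine main O θ m I A hA F (fun c u hu => ?_) a ha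
  obtain ⟨l, hl1, hl2⟩ := he c u hu
  let G : MvPolynomial (Fin (m c)) (Polynomial κ) :=
    ∑ a ∈ (Φ c).support, monomial a (Polynomial.C (coeff a (Φ c)) *
        Polynomial.X ^ ((e c u : ℤ) + (dot l a - dot l u)).toNat) +
      ∑ v ∈ I c, monomial v (Polynomial.C (b c v) *
        Polynomial.X ^ ((e c u : ℤ) + (dot l v - dot l u) - e c v).toNat)
  refine ⟨map q G, t ^ (dot l u - e c u), fun i => t ^ (-(l i)), b c u, hb c u hu, ?_, ?_⟩
  · rw [map_map, hF]
    simp only [G, map_add, mul_add, map_sum, map_monomial, hq2, scale_monomial, Finset.mul_sum,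
      C_mul_monomial]
    congr 1
    · conv_rhs => rw [(Φ c).as_sum]
      simp only [map_sum, map_monomial, scale_monomial, Finset.mul_sum, C_mul_monomial]
      refine Finset.sum_congr rfl fun a ha => ?_
      congr 1
      rw [prod_zpow ht0]
      have h1 := hl2 a ha
      rw [inv_pow, ← zpow_natCast, Int.toNat_of_nonneg h1.le, ← zpow_neg, ← mul_assoc,
        ← zpow_add₀ ht0, mul_comm]
      congr 2
      ring
    · refine Finset.sum_congr rfl fun v hv => ?_
      congr 1
      rw [prod_zpow ht0]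
      have h1 : 0 ≤ (e c u : ℤ) + (dot l v - dot l u) - e c v := by
        by_cases h : v = u
        · subst h; simp
        · have := hl1 v hv h
          omega
      rw [inv_pow, ← zpow_natCast, Int.toNat_of_nonneg h1, ← zpow_neg]
      have h2 : t ^ (dot l u - (e c u : ℤ)) * (t ^ (-(dot l v)) *
          ((algebraMap κ k) (b c v) * t ^ e c v)) =
          (algebraMap κ k) (b c v) * (t ^ (dot l u - (e c u : ℤ)) * t ^ (-(dot l v)) *
            t ^ ((e c v : ℕ) : ℤ)) := by
        rw [zpow_natCast]; ring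
      rw [h2, ← zpow_add₀ ht0, ← zpow_add₀ ht0]
      congr 2
      ring
  · rw [map_map, hθ]
    simp only [G, map_add, map_sum, map_monomial]
    have h1 : ∀ (x : κ) (n : ℕ), (Polynomial.evalRingHom (0 : κ)) (Polynomial.C x * Polynomial.X ^ n) =
        x * 0 ^ n := by
      intro x n
      simp
    simp only [h1]
    rw [Finset.sum_eq_zero, zero_add, Finset.sum_eq_single u]
    · simp
    · intro v hv hne
      have h2 := hl1 v hv hne
      rw [zero_pow, mul_zero, monomial_zero]
      omega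
    · intro h; exact absurd hu h
    · intro a ha
      have h2 := hl2 a ha
      rw [zero_pow, mul_zero, monomial_zero]
      omega

end Pool.Agent.U8.TR
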