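import Mathlib

set_option autoImplicit false
set_option linter.all false

namespace Pool.Agent.U8.TR

open Polynomial

/-- a valuation ring which contains `κ` and has `t⁻¹` in its maximal ideal -/
theorem exists_val {K κ : Type*} [Field K] [Field κ] [Algebra κ K] (t : K)
    (ht : Transcendental κ t) :
    ∃ O : ValuationSubring K, (∀ x : κ, algebraMap κ K x ∈ O) ∧ O.valuation t⁻¹ < 1 := by
  classical
  have hs : Transcendental κ t⁻¹ := fun h => ht (by simpa using h.inv)
  let f₀ : κ[X] →+* K := (aeval (R := κ) t⁻¹).toRingHom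
  have hf₀ : Function.Injective f₀ := transcendental_iff_injective.1 hs
  have hP : (Ideal.span {(X : κ[X])}).IsPrime :=
    (Ideal.span_singleton_prime X_ne_zero).2 prime_X
  let R := Localization.AtPrime (Ideal.span {(X : κ[X])})
  have hunit : ∀ y : (Ideal.span {(X : κ[X])}).primeCompl, IsUnit (f₀ y) := by
    intro y
    rw [isUnit_iff_ne_zero, Ne, map_eq_zero_iff _ hf₀]
    intro h
    exact y.2 (by rw [h]; exact Ideal.zero_mem _)
  let f : R →+* K := IsLocalization.lift hunit
  obtain ⟨O, hO, hloc⟩ := IsLocalRing.exists_factor_valuationRing f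
  refine ⟨O, fun x => ?_, ?_⟩
  · have h1 : f (algebraMap κ[X] R (C x)) = algebraMap κ K x := by
      rw [IsLocalization.lift_eq]
      change aeval t⁻¹ (C x) = _
      rw [aeval_C]
    rw [← h1]
    exact hO _
  · have h1 : f (algebraMap κ[X] R X) = t⁻¹ := by
      rw [IsLocalization.lift_eq]
      change aeval t⁻¹ X = _
      rw [aeval_X]
    have h2 : algebraMap κ[X] R X ∈ IsLocalRing.maximalIdeal R :=
      (IsLocalization.AtPrime.to_map_mem_maximal_iff R (Ideal.span {(X : κ[X])}) X).2
        (Ideal.mem_span_singleton_self X)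
    have h3 : ¬ IsUnit (f.codRestrict O.toSubring hO (algebraMap κ[X] R X)) := by
      intro h4
      exact (IsLocalRing.mem_maximalIdeal _).1 h2 (isUnit_of_map_unit _ _ h4)
    have h4 : (⟨t⁻¹, h1 ▸ hO _⟩ : O) ∈ IsLocalRing.maximalIdeal O := by
      rw [IsLocalRing.mem_maximalIdeal]
      intro h5
      apply h3
      have h6 : f.codRestrict O.toSubring hO (algebraMap κ[X] R X) =
          (⟨t⁻¹, h1 ▸ hO _⟩ : O) := Subtype.ext h1
      rw [h6]
      exact h5
    exact (O.valuation_lt_one_iff _).1 h4

/-- the valuation of the value of a polynomial -/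
theorem val_aeval {K κ : Type*} [Field K] [Field κ] [Algebra κ K] {t : K} (O : ValuationSubring K)
    (hκ : ∀ x : κ, algebraMap κ K x ∈ O) (ht : 1 < O.valuation t) (P : κ[X]) (hP : P ≠ 0) :
    O.valuation (aeval t P) = O.valuation t ^ P.natDegree := by
  have h1 : ∀ x : κ, x ≠ 0 → O.valuation (algebraMap κ K x) = 1 := by
    intro x hx
    apply le_antisymm ((O.valuation_le_one_iff _).2 (hκ x))
    have h2 := (O.valuation_le_one_iff _).2 (hκ x⁻¹)
    rw [map_inv₀, map_inv₀] at h2
    have h3 : O.valuation (algebraMap κ K x) ≠ 0 := by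
      rw [Ne, map_eq_zero, map_eq_zero]; exact hx
    rwa [inv_le_one₀ (zero_lt_iff.2 h3)] at h2
  have hle : ∀ x : κ, O.valuation (algebraMap κ K x) ≤ 1 := fun x =>
    (O.valuation_le_one_iff _).2 (hκ x)
  have h2 : ∀ Q : κ[X], ∀ d : ℕ, Q.natDegree ≤ d → O.valuation (aeval t Q) ≤ O.valuation t ^ d := by
    intro Q d hd
    rw [aeval_eq_sum_range]
    refine Valuation.map_sum_le _ fun i hi => ?_
    rw [Algebra.smul_def, map_mul, map_pow]
    have hi' : i ≤ d := (Finset.mem_range_succ_iff.1 hi).trans hd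
    calc O.valuation (algebraMap κ K (Q.coeff i)) * O.valuation t ^ i ≤ 1 * O.valuation t ^ i :=
          mul_le_mul_left (hle _) _
      _ = O.valuation t ^ i := one_mul _
      _ ≤ O.valuation t ^ d := pow_le_pow_right₀ ht.le hi'
  have h3 : aeval t P = aeval t P.eraseLead + algebraMap κ K P.leadingCoeff * t ^ P.natDegree := by
    conv_lhs => rw [← P.eraseLead_add_C_mul_X_pow]
    rw [map_add, map_mul, aeval_C, map_pow, aeval_X]
  have h4 : O.valuation (algebraMap κ K P.leadingCoeff * t ^ P.natDegree) =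
      O.valuation t ^ P.natDegree := by
    rw [map_mul, h1 _ (leadingCoeff_ne_zero.2 hP), one_mul, map_pow]
  rw [h3, Valuation.map_add_eq_of_lt_right, h4]
  rw [h4]
  by_cases h5 : P.eraseLead = 0
  · rw [h5, map_zero, map_zero]
    exact pow_pos (zero_lt_one.trans ht) _
  · have h6 : P.eraseLead.natDegree < P.natDegree := by
      rcases P.eraseLead_natDegree_lt_or_eraseLead_eq_zero with h | h
      · exact h
      · exact absurd h h5
    obtain ⟨d, hd⟩ : ∃ d, P.natDegree = d + 1 := ⟨P.natDegree - 1, by omega⟩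
    refine (h2 _ d (by omega)).trans_lt ?_
    rw [hd]
    exact pow_lt_pow_right₀ ht (Nat.lt_succ_self d)

end Pool.Agent.U8.TR
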