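import Pool.Agent.U8.TR.Simp2
import Pool.Agent.U8.TR.Val

set_option autoImplicit false
set_option linter.all false

namespace Pool.Agent.U8.TR

open MvPolynomial

/-- `l · a` -/
def dotp {m : ℕ} (l : Fin m → ℤ) (a : Fin m →₀ ℕ) : ℤ := ∑ i, l i * (a i : ℤ)

lemma prod_zpow_dot {m : ℕ} {K : Type*} [Field K] {s : K} (hs : s ≠ 0) (l : Fin m → ℤ)
    (a : Fin m →₀ ℕ) : (a.prod fun i e => (s ^ l i) ^ e) = s ^ dotp l a := by
  classical
  rw [Finsupp.prod_fintype _ _ (by simp), dotp]
  have h : ∀ T : Finset (Fin m), ∏ i ∈ T, (s ^ l i) ^ a i = s ^ ∑ i ∈ T, l i * (a i : ℤ) := by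
    intro T
    induction T using Finset.induction_on with
    | empty => simp
    | insert i T hi ih =>
      rw [Finset.prod_insert hi, Finset.sum_insert hi, zpow_add₀ hs, ih, zpow_mul, zpow_natCast]
  exact h _

/-- the cell of the height function `a ↦ deg (coeff a P)` which is cut out by `l, w` -/
noncomputable def cell {m : ℕ} {κ : Type*} [Field κ] (P : MvPolynomial (Fin m) (Polynomial κ))
    (N : ℕ) (l : Fin m → ℤ) (w : ℤ) : Finset (Fin m →₀ ℕ) :=
  P.support.filter fun a => N * ((coeff a P).natDegree : ℤ) + dotp l a = w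

theorem family2 {K κ : Type*} [Field K] [IsAlgClosed K] [Field κ] [CharZero κ] [Algebra κ K]
    (t : K) (ht : Transcendental κ t) {ι : Type*} [Fintype ι] {D : ℕ} (hD : 0 < D) (m : ι → ℕ)
    (I : ∀ c, Finset (Fin (m c) →₀ ℕ)) (P : ∀ c, MvPolynomial (Fin (m c)) (Polynomial κ))
    (h : ∀ c, ∀ u ∈ I c, ∃ (N : ℕ) (l : Fin (m c) → ℤ) (w : ℤ), 0 < N ∧
      (∀ a ∈ (P c).support, N * ((coeff a (P c)).natDegree : ℤ) + dotp l a ≤ w) ∧
      AffInd (cell (P c) N l w) ∧ RelInt D (cell (P c) N l w) u) :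
    DO {p | p % D = 1 % D} m I
      (fun c => map (Polynomial.aeval t : Polynomial κ →ₐ[κ] K).toRingHom (P c)) := by
  classical
  obtain ⟨O, hκ, hO⟩ := exists_val t ht
  have ht0 : t ≠ 0 := by
    rintro rfl
    exact ht isAlgebraic_zero
  have hvt0 : 0 < O.valuation t := by
    rw [zero_lt_iff, Ne, map_eq_zero]; exact ht0
  have ht1 : 1 < O.valuation t := by
    rwa [map_inv₀, inv_lt_one₀ hvt0] at hO
  choose! N l w hN hle hAff hRel using h
  have hroot : ∀ c u, ∃ s : K, u ∈ I c → s ^ N c u = t := by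
    intro c u
    by_cases hu : u ∈ I c
    · obtain ⟨s, hs⟩ := IsAlgClosed.exists_pow_nat_eq t (hN c u hu)
      exact ⟨s, fun _ => hs⟩
    · exact ⟨0, fun h1 => absurd h1 hu⟩
  choose s hs using hroot
  have hs0 : ∀ c, ∀ u ∈ I c, s c u ≠ 0 := by
    intro c u hu h0
    have := hs c u hu
    rw [h0, zero_pow (hN c u hu).ne'] at this
    exact ht0 this.symm
  have hs1 : ∀ c, ∀ u ∈ I c, 1 < O.valuation (s c u) := by
    intro c u hu
    by_contra hle1
    push Not at hle1
    have h1 : O.valuation t ≤ 1 := by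
      rw [← hs c u hu, map_pow]
      exact pow_le_one₀ zero_le' hle1
    exact absurd ht1 (not_lt.2 h1)
  let κ' := IsLocalRing.ResidueField O
  let θ : O →+* κ' := IsLocalRing.residue O
  have hκ0 : CharZero κ' :=
    charZero_of_injective_ringHom
      (f := (θ.comp ((algebraMap κ K).codRestrict O.toSubring hκ) : κ →+* κ'))
      (RingHom.injective _)
  let φ : Polynomial κ →+* K := (Polynomial.aeval t : Polynomial κ →ₐ[κ] K).toRingHom
  let μ : ∀ c, (Fin (m c) →₀ ℕ) → K := fun c u => s c u ^ (-w c u)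
  let τ : ∀ c, (Fin (m c) →₀ ℕ) → Fin (m c) → K := fun c u i => s c u ^ l c u i
  -- the valuation of the coefficients
  have hval : ∀ c, ∀ u ∈ I c, ∀ a ∈ (P c).support,
      O.valuation (coeff a (C (μ c u) * scale (τ c u) (map φ (P c)))) =
        O.valuation (s c u) ^ (N c u * ((coeff a (P c)).natDegree : ℤ) + dotp (l c u) a - w c u) := by
    intro c u hu a ha
    have h0 : O.valuation (s c u) ≠ 0 := (zero_lt_one.trans (hs1 c u hu)).ne'
    rw [coeff_C_mul, coeff_scale, coeff_map, map_mul, map_mul]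
    have e1 : O.valuation (μ c u) = O.valuation (s c u) ^ (-w c u) := by
      simp only [μ]; rw [map_zpow₀]
    have e2 : O.valuation (a.prod fun i e => τ c u i ^ e) =
        O.valuation (s c u) ^ dotp (l c u) a := by
      simp only [τ]
      rw [prod_zpow_dot (hs0 c u hu), map_zpow₀]
    have e3 : O.valuation (φ (coeff a (P c))) =
        O.valuation (s c u) ^ (N c u * ((coeff a (P c)).natDegree : ℤ)) := by
      change O.valuation (Polynomial.aeval t (coeff a (P c))) = _
      rw [val_aeval O hκ ht1 _ (mem_support_iff.1 ha)]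
      have h1 := congrArg O.valuation (hs c u hu)
      rw [map_pow] at h1
      rw [← h1, ← pow_mul, ← zpow_natCast]
      push_cast
      rfl
    rw [e1, e2, e3, ← zpow_add₀ h0, ← zpow_add₀ h0]
    congr 1
    ring
  have hzero : ∀ c, ∀ u ∈ I c, ∀ a ∉ (P c).support,
      coeff a (C (μ c u) * scale (τ c u) (map φ (P c))) = 0 := by
    intro c u hu a ha
    rw [coeff_C_mul, coeff_scale, coeff_map, notMem_support_iff.1 ha, map_zero, mul_zero, mul_zero]
  have hmem : ∀ c, ∀ u ∈ I c, ∀ a,
      coeff a (C (μ c u) * scale (τ c u) (map φ (P c))) ∈ O := by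
    intro c u hu a
    by_cases ha : a ∈ (P c).support
    · rw [← O.valuation_le_one_iff, hval c u hu a ha, zpow_le_one_iff_right₀ (hs1 c u hu)]
      have := hle c u hu a ha
      omega
    · rw [hzero c u hu a ha]; exact O.zero_mem
  have hGex : ∀ c u, ∃ G : MvPolynomial (Fin (m c)) O, u ∈ I c →
      map O.subtype G = C (μ c u) * scale (τ c u) (map φ (P c)) := by
    intro c u
    by_cases hu : u ∈ I c
    · have h1 : C (μ c u) * scale (τ c u) (map φ (P c)) ∈
          Set.range (map O.subtype : MvPolynomial (Fin (m c)) O →+* _) := by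
        rw [mem_range_map_iff_coeffs_subset]
        intro x hx
        obtain ⟨a, -, rfl⟩ := mem_coeffs_iff.1 hx
        exact ⟨⟨_, hmem c u hu a⟩, rfl⟩
      obtain ⟨G, hG⟩ := h1
      exact ⟨G, fun _ => hG⟩
    · exact ⟨0, fun h1 => absurd h1 hu⟩
  choose G hG using hGex
  have hsupp : ∀ c, ∀ u ∈ I c, (map θ (G c u)).support = cell (P c) (N c u) (l c u) (w c u) := by
    intro c u hu
    ext a
    have hca : ((coeff a (G c u) : O) : K) = coeff a (C (μ c u) * scale (τ c u) (map φ (P c))) := by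
      rw [← hG c u hu, coeff_map]; rfl
    rw [mem_support_iff, coeff_map, ← val_eq_one_iff O θ, hca, cell, Finset.mem_filter]
    by_cases ha : a ∈ (P c).support
    · rw [hval c u hu a ha, zpow_eq_one_iff_right₀ zero_le' (hs1 c u hu).ne', and_iff_right ha]
      omega
    · rw [hzero c u hu a ha, map_zero]
      simp [ha]
  refine simplicial O θ hD m I _ G μ τ (fun c u hu => zpow_ne_zero _ (hs0 c u hu))
    (fun c u hu i => zpow_ne_zero _ (hs0 c u hu)) hG (fun c u hu => ?_)
  rw [hsupp c u hu]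
  exact ⟨hRel c u hu, hAff c u hu⟩

end Pool.Agent.U8.TR
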