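import Pool.Agent.U8.TR.Base
import Pool.Agent.Y162.HW.Spread

set_option autoImplicit false
set_option linter.all false

open MvPolynomial

namespace Pool.Agent.U8.TR

theorem main {k κ : Type*} [Field k] [CharZero k] [Field κ] [CharZero κ]
    (O : Subring k) (θ : O →+* κ) {ι : Type*} [Fintype ι] (m : ι → ℕ)
    (I : ∀ c, Finset (Fin (m c) →₀ ℕ))
    (A : Subalgebra ℤ k) (hA : A.FG) (F : ∀ c, MvPolynomial (Fin (m c)) A)
    (hF : ∀ c, ∀ u ∈ I c, ∃ (G : MvPolynomial (Fin (m c)) O) (μ : k) (τ : Fin (m c) → k) (γ : κ),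
      γ ≠ 0 ∧ map O.subtype G = C μ * scale τ (map (algebraMap A k) (F c)) ∧
      map θ G = monomial u γ)
    (a : A) (ha : a ≠ 0) :
    ∃ N : ℕ, ∀ p : ℕ, N ≤ p → p.Prime → ∃ M : Ideal A, M.IsMaximal ∧ (p : A) ∈ M ∧ a ∉ M ∧
      ∀ c, (hw p (I c) (map (Ideal.Quotient.mk M) (F c))).det ≠ 0 := by
  classical
  have hF' : ∀ c, ∀ u : I c, ∃ (G : MvPolynomial (Fin (m c)) O) (μ : k) (τ : Fin (m c) → k) (γ : κ),
      γ ≠ 0 ∧ map O.subtype G = C μ * scale τ (map (algebraMap A k) (F c)) ∧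
      map θ G = monomial (u : Fin (m c) →₀ ℕ) γ := fun c u => hF c u.1 u.2
  choose G μ τ γ hγ hG hGθ using hF'
  let φ : O →ₐ[ℤ] k := O.subtype.toIntAlgHom
  let θ' : O →ₐ[ℤ] κ := θ.toIntAlgHom
  have hφ : Function.Injective φ := Subtype.val_injective
  -- the ring generated by the coefficients
  let T : Set O := ⋃ c, ⋃ u : I c, ((G c u).coeffs : Set O)
  have hT : T.Finite := Set.finite_iUnion fun c => Set.finite_iUnion fun u =>
    (G c u).coeffs.finite_toSet
  let C₁ : Subalgebra ℤ O := Algebra.adjoin ℤ T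
  have hC₁ : C₁.FG := Subalgebra.fg_def.2 ⟨T, hT, rfl⟩
  have hGC : ∀ c, ∀ u : I c, ∃ P : MvPolynomial (Fin (m c)) C₁, map (algebraMap C₁ O) P = G c u := by
    intro c u
    have h1 : G c u ∈ Set.range (map (algebraMap C₁ O) : MvPolynomial (Fin (m c)) C₁ →+* _) := by
      rw [mem_range_map_iff_coeffs_subset]
      intro x hx
      exact ⟨⟨x, Algebra.subset_adjoin (Set.mem_iUnion.2 ⟨c, Set.mem_iUnion.2 ⟨u, hx⟩⟩)⟩, rfl⟩
    exact h1
  choose GC hGC using hGC
  -- the ring in `κ`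
  let E : Set κ := ⋃ c, Set.range fun u : I c => (γ c u)⁻¹
  have hE : E.Finite := Set.finite_iUnion fun c => Set.finite_range _
  let A' : Subalgebra ℤ κ := C₁.map θ' ⊔ Algebra.adjoin ℤ E
  have hA' : A'.FG := (hC₁.map θ').sup (Subalgebra.fg_def.2 ⟨E, hE, rfl⟩)
  have hEA : ∀ c u, (γ c u)⁻¹ ∈ A' := fun c u =>
    (le_sup_right : Algebra.adjoin ℤ E ≤ A') (Algebra.subset_adjoin (Set.mem_iUnion.2 ⟨c, ⟨u, rfl⟩⟩))
  let t : C₁ →+* A' := ((θ'.comp C₁.val).codRestrict A' fun x =>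
    (le_sup_left : C₁.map θ' ≤ A') (Subalgebra.mem_map.2 ⟨x.1, x.2, rfl⟩)).toRingHom
  have ht : (algebraMap A' κ).comp t = θ.comp (algebraMap C₁ O) := rfl
  -- the ring in `k`
  let V : Set k := ⋃ c, ((Set.range fun u : I c => μ c u) ∪
    Set.range fun x : I c × Fin (m c) => τ c x.1 x.2)
  have hV : V.Finite := Set.finite_iUnion fun c => (Set.finite_range _).union (Set.finite_range _)
  let B : Subalgebra ℤ k := A ⊔ (C₁.map φ ⊔ Algebra.adjoin ℤ V)
  have hB : B.FG := hA.sup ((hC₁.map φ).sup (Subalgebra.fg_def.2 ⟨V, hV, rfl⟩))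
  have hVB : V ⊆ B := fun x hx =>
    (le_sup_right.trans le_sup_right : Algebra.adjoin ℤ V ≤ B) (Algebra.subset_adjoin hx)
  have hμB : ∀ c u, μ c u ∈ B := fun c u => hVB (Set.mem_iUnion.2 ⟨c, Or.inl ⟨u, rfl⟩⟩)
  have hτB : ∀ c u i, τ c u i ∈ B := fun c u i => hVB (Set.mem_iUnion.2 ⟨c, Or.inr ⟨(u, i), rfl⟩⟩)
  let iA : A →+* B := (Subalgebra.inclusion (le_sup_left : A ≤ B)).toRingHom
  have hiA : Function.Injective iA := Subalgebra.inclusion_injective _
  let f : C₁ →+* B := ((φ.comp C₁.val).codRestrict B fun x =>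
    ((le_sup_left.trans le_sup_right : C₁.map φ ≤ B)) (Subalgebra.mem_map.2 ⟨x.1, x.2, rfl⟩)).toRingHom
  have hf : Function.Injective f := by
    intro x y hxy
    have h1 : φ (x : O) = φ (y : O) := congrArg (fun z : B => (z : k)) hxy
    exact Subtype.ext (hφ h1)
  have hBinj : Function.Injective (algebraMap B k) := Subtype.val_injective
  have hfB : (algebraMap B k).comp f = (O.subtype).comp (algebraMap C₁ O) := rfl
  have hiAB : (algebraMap B k).comp iA = algebraMap A k := rfl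
  let μb : ∀ c, I c → B := fun c u => ⟨μ c u, hμB c u⟩
  let τb : ∀ c, I c → Fin (m c) → B := fun c u i => ⟨τ c u i, hτB c u i⟩
  have hrel : ∀ c u, map f (GC c u) = C (μb c u) * scale (τb c u) (map iA (F c)) := by
    intro c u
    apply map_injective _ hBinj
    rw [map_map, hfB, ← map_map, hGC, hG, map_mul, map_C, ← scale_map, map_map, hiAB]
    rfl
  -- the finiteness
  have ftB : Algebra.FiniteType ℤ B := (Subalgebra.fg_iff_finiteType _).mp hB
  have ftA : Algebra.FiniteType ℤ A := (Subalgebra.fg_iff_finiteType _).mp hA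
  have ftC : Algebra.FiniteType ℤ C₁ := (Subalgebra.fg_iff_finiteType _).mp hC₁
  have ftA' : Algebra.FiniteType ℤ A' := (Subalgebra.fg_iff_finiteType _).mp hA'
  have hJac : IsJacobsonRing A := by
    have := Pool.Agent.Y162.HW.jac_int
    exact isJacobsonRing_of_finiteType (A := ℤ)
  have ha' : iA a ≠ 0 := by rwa [map_ne_zero_iff _ hiA]
  obtain ⟨N, hN⟩ := Pool.Agent.Y162.HW.spread f hf t (fun p => ∏ c, (mm p (I c) (GC c)).det)
    (by
      refine ⟨0, fun p _ hp Q hQ hpQ hmem => ?_⟩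
      have h1 : (algebraMap A' κ) (t (∏ c, (mm p (I c) (GC c)).det)) =
          ∏ c, ∏ u, γ c u ^ p := by
        rw [map_prod, map_prod]
        refine Finset.prod_congr rfl fun c _ => ?_
        rw [← mm_det_map t, ← mm_det_map (algebraMap A' κ)]
        rw [mm_monomial hp.pos (I c) _ (γ c), Matrix.det_diagonal]
        intro u
        rw [map_map, ht, ← map_map, hGC, hGθ]
      let e : A' := ∏ c, ∏ u, (⟨(γ c u)⁻¹, hEA c u⟩ : A') ^ p
      have h2 : t (∏ c, (mm p (I c) (GC c)).det) * e = 1 := by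
        apply Subtype.val_injective (p := fun x => x ∈ A')
        change (algebraMap A' κ) (t (∏ c, (mm p (I c) (GC c)).det) * e) = 1
        rw [map_mul, h1, map_prod]
        simp only [map_prod, map_pow]
        rw [← Finset.prod_mul_distrib]
        refine Finset.prod_eq_one fun c _ => ?_
        rw [← Finset.prod_mul_distrib]
        refine Finset.prod_eq_one fun u _ => ?_
        rw [← mul_pow]
        have : (algebraMap A' κ) (⟨(γ c u)⁻¹, hEA c u⟩ : A') = (γ c u)⁻¹ := rfl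
        rw [this, mul_inv_cancel₀ (hγ c u), one_pow]
      have h3 := Q.mul_mem_right e hmem
      rw [h2] at h3
      exact hQ.ne_top ((Ideal.eq_top_iff_one Q).2 h3)) (iA a) ha'
  refine ⟨N, fun p hNp hp => ?_⟩
  obtain ⟨MB, hMB, hpM, haM, hfM⟩ := hN p hNp hp
  have hMBp : MB.IsPrime := hMB.isPrime
  have hdet : ∀ c, iA (hw p (I c) (F c)).det ∉ MB := by
    intro c hc
    apply hfM
    rw [map_prod]
    refine MB.mem_of_dvd (Finset.dvd_prod_of_mem _ (Finset.mem_univ c)) ?_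
    rw [← mm_det_map f, mm_eq hp.pos (I c) (map iA (F c)) _ (μb c) (τb c) (hrel c),
      Matrix.det_mul, Matrix.det_mul, hw_det_map]
    exact MB.mul_mem_right _ (MB.mul_mem_left _ hc)
  -- back to `A`
  let P : Ideal A := MB.comap iA
  have hP : P.IsPrime := Ideal.comap_isPrime iA MB
  have hprod : a * ∏ c, (hw p (I c) (F c)).det ∉ P := by
    intro hmem
    rcases hP.mem_or_mem hmem with h1 | h1
    · exact haM h1
    · obtain ⟨c, _, hc⟩ := (hP.prod_mem_iff).1 h1
      exact hdet c hc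
  have hjac : P.jacobson = P := isJacobsonRing_iff_prime_eq.mp hJac P hP
  rw [← hjac, Ideal.jacobson, Submodule.mem_sInf] at hprod
  push Not at hprod
  obtain ⟨M, ⟨hPM, hM⟩, hMa⟩ := hprod
  refine ⟨M, hM, hPM ?_, fun h1 => hMa (Ideal.mul_mem_right _ M h1), fun c hc => ?_⟩
  · change iA (p : A) ∈ MB
    rw [map_natCast]; exact hpM
  · apply hMa
    refine Ideal.mul_mem_left M _ (Ideal.mem_of_dvd M (Finset.dvd_prod_of_mem _ (Finset.mem_univ c)) ?_)
    rw [hw_det_map] at hc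
    exact Ideal.Quotient.eq_zero_iff_mem.1 hc

end Pool.Agent.U8.TR
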