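import Pool.Agent.U8.TR.Tra2

set_option autoImplicit false
set_option linter.all false

open MvPolynomial

namespace Pool.Agent.U8.TR

/-- the elements of `V` are affinely independent -/
def AffInd {m : ℕ} (V : Finset (Fin m →₀ ℕ)) : Prop :=
  ∀ z : (Fin m →₀ ℕ) → ℤ, ∑ a ∈ V, z a = 0 → (∀ i, ∑ a ∈ V, z a * (a i : ℤ) = 0) →
    ∀ a ∈ V, z a = 0

section field

variable {m : ℕ} {L : Type*} [Field L]

lemma pow_expand (V : Finset (Fin m →₀ ℕ)) (γ : (Fin m →₀ ℕ) → L) (q : ℕ)
    (v : Fin m →₀ ℕ) :
    monomial v 1 * (∑ s ∈ V, monomial s (γ s)) ^ q =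
      ∑ k ∈ Finset.piAntidiag V q, monomial (v + ∑ s ∈ V, k s • s)
        ((Nat.multinomial V k : L) * ∏ s ∈ V, γ s ^ k s) := by
  classical
  rw [Finset.sum_pow_eq_sum_piAntidiag, Finset.mul_sum]
  refine Finset.sum_congr rfl fun k _ => ?_
  have h1 : ∀ T : Finset (Fin m →₀ ℕ), (∏ s ∈ T, (monomial s (γ s) : MvPolynomial (Fin m) L) ^ k s) =
      monomial (∑ s ∈ T, k s • s) (∏ s ∈ T, γ s ^ k s) := by
    intro T
    induction T using Finset.induction_on with
    | empty => simp
    | insert s T hs ih =>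
      rw [Finset.prod_insert hs, Finset.sum_insert hs, Finset.prod_insert hs, ih, monomial_pow,
        monomial_mul]
  rw [h1, ← C_eq_coe_nat, C_mul_monomial, monomial_mul, one_mul]

/-- the key computation for simplices -/
lemma simplex_key {D : ℕ} {V : Finset (Fin m →₀ ℕ)} (hV : AffInd V) {p : ℕ} (hp : 0 < p)
    {u v : Fin m →₀ ℕ} {nu nv : (Fin m →₀ ℕ) → ℕ} (hu2 : ∑ a ∈ V, nu a = D)
    (hu3 : ∑ a ∈ V, nu a • a = D • u) (hv2 : ∑ a ∈ V, nv a = D)
    (hv3 : ∑ a ∈ V, nv a • a = D • v) {k : (Fin m →₀ ℕ) → ℕ} (hk : ∑ a ∈ V, k a = p - 1)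
    (hks : v + ∑ s ∈ V, k s • s = p • u) : ∀ s ∈ V, D * k s + nv s = p * nu s := by
  intro s hs
  have h := hV (fun a => (D : ℤ) * k a + nv a - p * nu a) ?_ ?_ s hs
  · have h' : (D : ℤ) * k s + nv s - p * nu s = 0 := h
    have h'' : (D : ℤ) * k s + nv s = p * nu s := by linarith
    exact_mod_cast h''
  · rw [Finset.sum_sub_distrib, Finset.sum_add_distrib, ← Finset.mul_sum, ← Finset.mul_sum]
    have e1 : ∑ a ∈ V, (k a : ℤ) = (p : ℤ) - 1 := by
      have := congrArg (fun x : ℕ => (x : ℤ)) hk
      simp only [Nat.cast_sum] at this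
      rw [this]
      push_cast [Nat.cast_sub hp]
      ring
    have e2 : ∑ a ∈ V, (nv a : ℤ) = D := by exact_mod_cast hv2
    have e3 : ∑ a ∈ V, (nu a : ℤ) = D := by exact_mod_cast hu2
    rw [e1, e2, e3]
    ring
  · intro i
    have e1 : (v i : ℤ) + ∑ a ∈ V, (k a : ℤ) * (a i : ℤ) = p * (u i : ℤ) := by
      have h1 := congrArg (fun x : Fin m →₀ ℕ => ((x i : ℕ) : ℤ)) hks
      simp only [Finsupp.add_apply, Finsupp.coe_finset_sum, Finset.sum_apply, Finsupp.smul_apply,
        smul_eq_mul] at h1
      push_cast at h1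
      exact h1
    have e2 : ∑ a ∈ V, (nv a : ℤ) * (a i : ℤ) = D * (v i : ℤ) := by
      have h1 := congrArg (fun x : Fin m →₀ ℕ => ((x i : ℕ) : ℤ)) hv3
      simp only [Finsupp.coe_finset_sum, Finset.sum_apply, Finsupp.smul_apply,
        smul_eq_mul] at h1
      push_cast at h1
      exact h1
    have e3 : ∑ a ∈ V, (nu a : ℤ) * (a i : ℤ) = D * (u i : ℤ) := by
      have h1 := congrArg (fun x : Fin m →₀ ℕ => ((x i : ℕ) : ℤ)) hu3
      simp only [Finsupp.coe_finset_sum, Finset.sum_apply, Finsupp.smul_apply,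
        smul_eq_mul] at h1
      push_cast at h1
      exact h1
    have e4 : ∑ a ∈ V, ((D : ℤ) * k a + nv a - p * nu a) * (a i : ℤ) =
        D * (∑ a ∈ V, (k a : ℤ) * (a i : ℤ)) + ∑ a ∈ V, (nv a : ℤ) * (a i : ℤ) -
          p * ∑ a ∈ V, (nu a : ℤ) * (a i : ℤ) := by
      rw [Finset.mul_sum, Finset.mul_sum, ← Finset.sum_add_distrib, ← Finset.sum_sub_distrib]
      refine Finset.sum_congr rfl fun a _ => ?_
      ring
    rw [e4, e2, e3]
    have : ∑ a ∈ V, (k a : ℤ) * (a i : ℤ) = p * (u i : ℤ) - v i := by linarith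
    rw [this]
    ring

lemma simplex_field {D : ℕ} (hD : 0 < D) {V : Finset (Fin m →₀ ℕ)} (hV : AffInd V) {p : ℕ}
    (hp : p.Prime) [CharP L p] (hpD : p % D = 1 % D) (I : Finset (Fin m →₀ ℕ))
    (hI : ∀ u ∈ I, RelInt D V u) (γ : (Fin m →₀ ℕ) → L) (hγ : ∀ s ∈ V, γ s ≠ 0) :
    (hw p I (∑ s ∈ V, monomial s (γ s))).det ≠ 0 := by
  classical
  have hI' : ∀ u : ↥I, RelInt D V u := fun u => hI u u.2
  choose n hn1 hn2 hn3 using hI'
  have hle : ∀ u, ∀ s ∈ V, n u s ≤ D := by
    intro u s hs
    rw [← hn2 u]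
    exact Finset.single_le_sum (fun _ _ => Nat.zero_le _) hs
  obtain ⟨e, he⟩ : ∃ e, p = 1 + D * e := by
    rcases Nat.eq_or_lt_of_le (show 1 ≤ D from hD) with h1 | h1
    · exact ⟨p - 1, by rw [← h1]; have := hp.pos; omega⟩
    · have h2 : 1 % D = 1 := Nat.mod_eq_of_lt h1
      rw [h2] at hpD
      refine ⟨p / D, ?_⟩
      have := Nat.mod_add_div p D
      rw [hpD] at this
      exact this.symm
  have hdiag : hw p I (∑ s ∈ V, monomial s (γ s)) = Matrix.diagonal fun u : ↥I =>
      (Nat.multinomial V (fun s => if s ∈ V then e * n u s else 0) : L) *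
        ∏ s ∈ V, γ s ^ (e * n u s) := by
    ext u v
    rw [Matrix.diagonal_apply, hw, Matrix.of_apply, pow_expand, coeff_sum]
    by_cases huv : u = v
    · subst huv
      rw [if_pos rfl]
      have hk0 : (fun s => if s ∈ V then e * n u s else 0) ∈ Finset.piAntidiag V (p - 1) := by
        rw [Finset.mem_piAntidiag]
        refine ⟨?_, fun i hi => ?_⟩
        · rw [Finset.sum_congr rfl (fun s hs => if_pos hs), ← Finset.mul_sum, hn2 u, he]
          rw [Nat.add_sub_cancel_left, mul_comm]
        · by_contra h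
          exact hi (if_neg h)
      rw [Finset.sum_eq_single _ _ (fun h => absurd hk0 h)]
      · rw [coeff_monomial, if_pos]
        · congr 1
          refine Finset.prod_congr rfl fun s hs => ?_
          show γ s ^ (if s ∈ V then e * n u s else 0) = _
          rw [if_pos hs]
        · have h1 : ∑ s ∈ V, (if s ∈ V then e * n u s else 0) • s = e • D • (u : Fin m →₀ ℕ) := by
            rw [← hn3 u, Finset.smul_sum]
            refine Finset.sum_congr rfl fun s hs => ?_
            rw [if_pos hs, mul_smul]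
          rw [h1, he, add_smul, one_smul, mul_comm, mul_smul]
      · intro k hk hne
        rw [coeff_monomial, if_neg]
        intro hks
        apply hne
        have hk' := Finset.mem_piAntidiag.1 hk
        have h1 := simplex_key hV hp.pos (hn2 u) (hn3 u) (hn2 u) (hn3 u) hk'.1 hks
        funext s
        by_cases hs : s ∈ V
        · rw [if_pos hs]
          have h2 := h1 s hs
          rw [he] at h2
          have h3 : D * k s = D * (e * n u s) := by
            have : (1 + D * e) * n u s = n u s + D * (e * n u s) := by ring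
            omega
          exact Nat.eq_of_mul_eq_mul_left hD h3
        · rw [if_neg hs]
          by_contra h
          exact hs (hk'.2 s h)
    · rw [if_neg huv]
      refine Finset.sum_eq_zero fun k hk => ?_
      rw [coeff_monomial, if_neg]
      intro hks
      apply huv
      have hk' := Finset.mem_piAntidiag.1 hk
      have h1 := simplex_key hV hp.pos (hn2 u) (hn3 u) (hn2 v) (hn3 v) hk'.1 hks
      have h4 : ∀ s ∈ V, n u s = n v s := by
        intro s hs
        have h2 := h1 s hs
        have h5 : n v s ≡ n u s [MOD D] := by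
          have h6 : D * k s + n v s = n u s + D * (e * n u s) := by
            rw [h2, he]; ring
          have h7 : (D * k s + n v s) % D = (n u s + D * (e * n u s)) % D := by rw [h6]
          rw [Nat.mul_add_mod, Nat.add_mul_mod_self_left] at h7
          exact h7
        have a1 := hn1 u s hs
        have a2 := hn1 v s hs
        have a3 := hle u s hs
        have a4 := hle v s hs
        have h8 : n v s - 1 ≡ n u s - 1 [MOD D] := by
          have : (n v s - 1) + 1 ≡ (n u s - 1) + 1 [MOD D] := by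
            rwa [Nat.sub_add_cancel a2, Nat.sub_add_cancel a1]
          exact Nat.ModEq.add_right_cancel' 1 this
        have h9 := Nat.ModEq.eq_of_lt_of_lt h8 (by omega) (by omega)
        omega
      have h5 : D • (u : Fin m →₀ ℕ) = D • (v : Fin m →₀ ℕ) := by
        rw [← hn3 u, ← hn3 v]
        refine Finset.sum_congr rfl fun s hs => ?_
        rw [h4 s hs]
      apply Subtype.ext
      ext i
      have h6 := DFunLike.congr_fun h5 i
      simp only [Finsupp.smul_apply, smul_eq_mul] at h6
      exact Nat.eq_of_mul_eq_mul_left hD h6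
  rw [hdiag, Matrix.det_diagonal]
  refine Finset.prod_ne_zero_iff.2 fun u _ => mul_ne_zero ?_ ?_
  · rw [Ne, CharP.cast_eq_zero_iff L p]
    intro hdvd
    have h1 := Nat.multinomial_spec V (fun s => if s ∈ V then e * n u s else 0)
    have h2 : ∑ s ∈ V, (if s ∈ V then e * n u s else 0) = p - 1 := by
      rw [Finset.sum_congr rfl (fun s hs => if_pos hs), ← Finset.mul_sum, hn2 u, he]
      rw [Nat.add_sub_cancel_left, mul_comm]
    rw [h2] at h1
    have h3 : p ∣ (p - 1).factorial := by
      rw [← h1]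
      exact Dvd.dvd.mul_left hdvd _
    have h4 := (hp.dvd_factorial).1 h3
    have := hp.pos
    omega
  · exact Finset.prod_ne_zero_iff.2 fun s hs => pow_ne_zero _ (hγ s hs)

end field

end Pool.Agent.U8.TR
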