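import Pool.Agent.U8.TR.Simp

set_option autoImplicit false
set_option linter.all false

open MvPolynomial

namespace Pool.Agent.U8.TR

/-- polynomials with affinely independent supports -/
theorem simplex {κ : Type*} [Field κ] [CharZero κ] {ι : Type*} [Fintype ι] {D : ℕ} (hD : 0 < D)
    (m : ι → ℕ) (I : ∀ c, Finset (Fin (m c) →₀ ℕ)) (g : ∀ c, MvPolynomial (Fin (m c)) κ)
    (hg : ∀ c, AffInd (g c).support) (hI : ∀ c, ∀ u ∈ I c, RelInt D (g c).support u) :
    DO {p | p % D = 1 % D} m I g := by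
  classical
  intro A hA F hF a ha
  have hAinj : Function.Injective (algebraMap A κ) := Subtype.val_injective
  have hsup : ∀ c, (F c).support = (g c).support := by
    intro c
    rw [← hF c]
    ext s
    rw [mem_support_iff, mem_support_iff, coeff_map, map_ne_zero_iff _ hAinj]
  let b : A := a * ∏ c, ∏ s ∈ (F c).support, coeff s (F c)
  have hb : b ≠ 0 := by
    refine mul_ne_zero ha (Finset.prod_ne_zero_iff.2 fun c _ => Finset.prod_ne_zero_iff.2
      fun s hs => mem_support_iff.1 hs)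
  have hA0 : CharZero A := by
    refine ⟨fun i j hij => ?_⟩
    have := congrArg (algebraMap A κ) hij
    simpa using this
  have ftA : Algebra.FiniteType ℤ A := (Subalgebra.fg_iff_finiteType _).mp hA
  obtain ⟨N, hN⟩ := spread' (RingHom.id A) (fun _ _ h => h) (RingHom.id A) (fun _ => (1 : A))
    {p | p % D = 1 % D} (by
      obtain ⟨N, hN⟩ := Pool.Agent.Y162.HW.exists_prime_over (R := A)
      refine ⟨N, fun p _ hp hNp => ?_⟩
      obtain ⟨Q, hQ, hpQ⟩ := hN p hNp hp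
      exact ⟨Q, hQ, hpQ, fun h1 => hQ.ne_top ((Ideal.eq_top_iff_one Q).2 h1)⟩) b hb
  refine ⟨N, fun p hpS hp hNp => ?_⟩
  obtain ⟨M, hM, hpM, hbM, -⟩ := hN p hpS hp hNp
  refine ⟨M, hM, hpM, fun h1 => hbM (Ideal.mul_mem_right _ M h1), fun c => ?_⟩
  letI : Field (A ⧸ M) := Ideal.Quotient.field M
  have hchar : CharP (A ⧸ M) p := prime_charP' hp (by
    have : Ideal.Quotient.mk M (p : A) = 0 := Ideal.Quotient.eq_zero_iff_mem.2 hpM
    rwa [map_natCast] at this)
  have hmap : map (Ideal.Quotient.mk M) (F c) = ∑ s ∈ (g c).support, monomial s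
      (Ideal.Quotient.mk M (coeff s (F c))) := by
    conv_lhs => rw [(F c).as_sum]
    rw [map_sum, hsup c]
    refine Finset.sum_congr rfl fun s _ => ?_
    rw [map_monomial]
  rw [hmap]
  refine simplex_field hD (hg c) hp hpS (I c) (hI c) _ fun s hs h0 => ?_
  have h1 : coeff s (F c) ∈ M := Ideal.Quotient.eq_zero_iff_mem.1 h0
  apply hbM
  refine Ideal.mul_mem_left M _ (Ideal.mem_of_dvd M ((Finset.dvd_prod_of_mem _ ?_).trans
    (Finset.dvd_prod_of_mem _ (Finset.mem_univ c))) h1)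
  rw [hsup c]; exact hs

/-- the simplicial case -/
theorem simplicial {K κ : Type*} [Field K] [Field κ] [CharZero κ] (O : ValuationSubring K)
    (θ : O →+* κ) [IsLocalHom θ] {ι : Type*} [Fintype ι] {D : ℕ} (hD : 0 < D) (m : ι → ℕ)
    (I : ∀ c, Finset (Fin (m c) →₀ ℕ)) (f : ∀ c, MvPolynomial (Fin (m c)) K)
    (G : ∀ c, (Fin (m c) →₀ ℕ) → MvPolynomial (Fin (m c)) O)
    (μ : ∀ c, (Fin (m c) →₀ ℕ) → K) (τ : ∀ c, (Fin (m c) →₀ ℕ) → Fin (m c) → K)
    (hμ : ∀ c, ∀ u ∈ I c, μ c u ≠ 0) (hτ : ∀ c, ∀ u ∈ I c, ∀ i, τ c u i ≠ 0)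
    (hG : ∀ c, ∀ u ∈ I c, map O.subtype (G c u) = C (μ c u) * scale (τ c u) (f c))
    (hu : ∀ c, ∀ u ∈ I c, RelInt D (map θ (G c u)).support u ∧
      AffInd (map θ (G c u)).support) :
    DO {p | p % D = 1 % D} m I f := by
  classical
  refine transfer O θ _ m I f G μ τ hμ hτ hG (fun c u hc => ⟨D, hD, (hu c u hc).1⟩) ?_
  refine simplex hD _ _ _ (fun x => (hu x.1 x.2 x.2.2).2) (fun x v hv => ?_)
  have hv' := Finset.mem_filter.1 hv
  rw [← hv'.2]
  exact (hu x.1 v hv'.1).1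

end Pool.Agent.U8.TR
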