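import Pool.Agent.Y162.HW.Spread

set_option autoImplicit false
set_option linter.all false

namespace Pool.Agent.U8.TR

open Pool.Agent.Y162.HW

/-- a form of `spread` for a set of prime numbers, with one prime ideal for every `p` -/
theorem spread' {C A R : Type*} [CommRing C] [IsDomain C] [Algebra.FiniteType ℤ C] [CommRing A]
    [IsDomain A] [CharZero A] [Algebra.FiniteType ℤ A] [CommRing R] [IsDomain R] [CharZero R]
    (f : C →+* A) (hf : Function.Injective f) (t : C →+* R) (h : ℕ → C) (S : Set ℕ)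
    (H : ∃ N : ℕ, ∀ p ∈ S, p.Prime → N ≤ p → ∃ Q : Ideal R, Q.IsPrime ∧ (p : R) ∈ Q ∧
      t (h p) ∉ Q) (a : A) (ha : a ≠ 0) :
    ∃ N : ℕ, ∀ p ∈ S, p.Prime → N ≤ p →
      ∃ M : Ideal A, M.IsMaximal ∧ (p : A) ∈ M ∧ a ∉ M ∧ f (h p) ∉ M := by
  have hN : IsNoetherianRing C := Algebra.FiniteType.isNoetherianRing ℤ C
  have hC0 : CharZero C := by
    refine ⟨fun m n hmn => ?_⟩
    have := congrArg f hmn
    simpa using this
  have hJ : IsJacobsonRing A := by
    have := jac_int
    exact isJacobsonRing_of_finiteType (A := ℤ)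
  have hft : f.FiniteType := by
    have h1 : (f.comp (algebraMap ℤ C)).FiniteType := by
      have : (algebraMap ℤ A).FiniteType := RingHom.finiteType_algebraMap.mpr inferInstance
      rwa [show algebraMap ℤ A = f.comp (algebraMap ℤ C) from RingHom.ext_int _ _] at this
    exact RingHom.FiniteType.of_comp_finiteType h1
  obtain ⟨c, hc, hlift⟩ := chev f hf hft a ha
  obtain ⟨N1, hN1⟩ := large_primes c hc
  obtain ⟨N3, hN3⟩ := H
  refine ⟨max N1 N3, fun p hpS hp hNp => ?_⟩
  obtain ⟨Q, hQ, hpQ, hh⟩ := hN3 p hpS hp ((le_max_right _ _).trans hNp)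
  have hle : Ideal.span {(p : C)} ≤ Q.comap t := by
    rw [Ideal.span_le]
    simpa using hpQ
  obtain ⟨P, hP, hPQ⟩ := Ideal.exists_minimalPrimes_le hle
  have hPp : P.IsPrime := hP.1.1
  have hcP := hN1 p ((le_max_left _ _).trans hNp) hp P hP
  have hhP : h p ∉ P := fun hm => hh (hPQ hm)
  obtain ⟨M0, hM0, hM0P, haM0⟩ := hlift P hPp hcP
  have hfM0 : f (h p) ∉ M0 := by
    intro hm
    apply hhP
    rw [← hM0P]; exact hm
  have hpM0 : (p : A) ∈ M0 := by
    have : (p : C) ∈ M0.comap f := by rw [hM0P]; exact hP.1.2 (Ideal.subset_span rfl)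
    simpa using this
  have hprod : a * f (h p) ∉ M0 := by
    intro hm
    rcases hM0.mem_or_mem hm with h1 | h1
    · exact haM0 h1
    · exact hfM0 h1
  have hjac : M0.jacobson = M0 := isJacobsonRing_iff_prime_eq.mp hJ M0 hM0
  rw [← hjac, Ideal.jacobson, Submodule.mem_sInf] at hprod
  push Not at hprod
  obtain ⟨M, ⟨hM0M, hM⟩, hMa⟩ := hprod
  exact ⟨M, hM, hM0M hpM0, fun h1 => hMa (Ideal.mul_mem_right _ M h1),
    fun h1 => hMa (Ideal.mul_mem_left M _ h1)⟩

end Pool.Agent.U8.TR
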