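import Pool.Agent.U8.TR.Base

set_option autoImplicit false
set_option linter.all false

open MvPolynomial

namespace Pool.Agent.U8.TR

section mon

variable {m : ℕ} {K : Type*} [Field K]

/-- the value of the rescaled monomial -/
def mon (μ : K) (τ : Fin m → K) (v : Fin m →₀ ℕ) : K := μ * v.prod fun i e => τ i ^ e

/-- `u` is in the relative interior of the convex hull of `V`, with denominator `D` -/
def RelInt (D : ℕ) (V : Finset (Fin m →₀ ℕ)) (u : Fin m →₀ ℕ) : Prop :=
  ∃ n : (Fin m →₀ ℕ) → ℕ, (∀ a ∈ V, 1 ≤ n a) ∧ ∑ a ∈ V, n a = D ∧ ∑ a ∈ V, n a • a = D • u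

lemma mon_ne {μ : K} {τ : Fin m → K} (hμ : μ ≠ 0) (hτ : ∀ i, τ i ≠ 0) (v : Fin m →₀ ℕ) :
    mon μ τ v ≠ 0 :=
  mul_ne_zero hμ (Finset.prod_ne_zero_iff.2 fun i _ => pow_ne_zero _ (hτ i))

lemma mon_pow (μ : K) (τ : Fin m → K) {V : Finset (Fin m →₀ ℕ)} {u : Fin m →₀ ℕ} {D : ℕ}
    {n : (Fin m →₀ ℕ) → ℕ} (hn : ∑ a ∈ V, n a = D) (hs : ∑ a ∈ V, n a • a = D • u) :
    mon μ τ u ^ D = ∏ a ∈ V, mon μ τ a ^ n a := by
  classical
  rw [mon, mul_pow, ← prod_smul, ← hs]
  have h1 : ((∑ a ∈ V, n a • a).prod fun i e => τ i ^ e) =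
      ∏ a ∈ V, (a.prod fun i e => τ i ^ e) ^ n a := by
    rw [← Finsupp.prod_finset_sum_index (by simp) (fun i a b => pow_add _ _ _)]
    refine Finset.prod_congr rfl fun a _ => ?_
    rw [prod_smul]
  rw [h1, ← hn, ← Finset.prod_pow_eq_pow_sum, ← Finset.prod_mul_distrib]
  refine Finset.prod_congr rfl fun a _ => ?_
  rw [mon, mul_pow]

end mon

section val

variable {m : ℕ} {K κ : Type*} [Field K] [Field κ] (O : ValuationSubring K) (θ : O →+* κ)
  [IsLocalHom θ]

lemma val_coeff (x : O) : O.valuation (x : K) ≤ 1 := O.valuation_le_one x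

lemma val_eq_one_iff (x : O) : O.valuation (x : K) = 1 ↔ θ x ≠ 0 := by
  rw [← O.valuation_eq_one_iff]
  constructor
  · intro h; exact (h.map θ).ne_zero
  · intro h; exact isUnit_of_map_unit θ x (isUnit_iff_ne_zero.2 h)

lemma val_lt_one_iff (x : O) : O.valuation (x : K) < 1 ↔ θ x = 0 := by
  have h1 := val_eq_one_iff O θ x
  have h2 := O.valuation_le_one x
  constructor
  · intro h
    by_contra h0
    exact absurd (h1.2 h0) h.ne
  · intro h
    refine lt_of_le_of_ne h2 fun h3 => (h1.1 h3) h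

lemma rho {F : MvPolynomial (Fin m) K} {Gu Gv : MvPolynomial (Fin m) O} {μu μv : K}
    {τu τv : Fin m → K} (hμu : μu ≠ 0) (hτu : ∀ i, τu i ≠ 0) (hμv : μv ≠ 0)
    (hτv : ∀ i, τv i ≠ 0) (hGu : map O.subtype Gu = C μu * scale τu F)
    (hGv : map O.subtype Gv = C μv * scale τv F) {D : ℕ} (hD : 0 < D) {v : Fin m →₀ ℕ}
    (hv : RelInt D (map θ Gv).support v) :
    O.valuation (mon μu τu v / mon μv τv v) ≤ 1 ∧
      (¬ (map θ Gv).support ⊆ (map θ Gu).support →
        O.valuation (mon μu τu v / mon μv τv v) < 1) := by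
  classical
  obtain ⟨n, hn1, hn2, hn3⟩ := hv
  set V := (map θ Gv).support with hV
  have hcu : ∀ a, ((coeff a Gu : O) : K) = mon μu τu a * coeff a F := by
    intro a
    have h1 := congrArg (coeff a) hGu
    rw [coeff_map, coeff_C_mul, coeff_scale, ← mul_assoc] at h1
    exact h1
  have hcv : ∀ a, ((coeff a Gv : O) : K) = mon μv τv a * coeff a F := by
    intro a
    have h1 := congrArg (coeff a) hGv
    rw [coeff_map, coeff_C_mul, coeff_scale, ← mul_assoc] at h1
    exact h1
  have hval : ∀ a ∈ V, O.valuation ((coeff a Gv : O) : K) = 1 := by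
    intro a ha
    rw [val_eq_one_iff O θ]
    rw [hV, mem_support_iff, coeff_map] at ha
    exact ha
  have hratio : ∀ a ∈ V, O.valuation (mon μu τu a / mon μv τv a) =
      O.valuation ((coeff a Gu : O) : K) := by
    intro a ha
    have h1 := hval a ha
    have hc : coeff a F ≠ 0 := by
      intro h0
      rw [hcv, h0, mul_zero, map_zero] at h1
      exact zero_ne_one h1
    have h2 : mon μu τu a / mon μv τv a = ((coeff a Gu : O) : K) / ((coeff a Gv : O) : K) := by
      rw [hcu, hcv, mul_div_mul_right _ _ hc]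
    rw [h2, map_div₀, h1, div_one]
  have hpow : O.valuation (mon μu τu v / mon μv τv v) ^ D =
      ∏ a ∈ V, O.valuation ((coeff a Gu : O) : K) ^ n a := by
    rw [← map_pow, div_pow, mon_pow μu τu hn2 hn3, mon_pow μv τv hn2 hn3, ← Finset.prod_div_distrib,
      map_prod]
    refine Finset.prod_congr rfl fun a ha => ?_
    rw [← div_pow, map_pow, hratio a ha]
  have hle : ∀ a ∈ V, O.valuation ((coeff a Gu : O) : K) ^ n a ≤ 1 := fun a _ =>
    pow_le_one' (O.valuation_le_one _) _
  constructor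
  · by_contra hlt
    rw [not_le] at hlt
    have h1 : 1 < O.valuation (mon μu τu v / mon μv τv v) ^ D := one_lt_pow' hlt hD.ne'
    rw [hpow] at h1
    exact absurd (Finset.prod_le_one' hle) (not_le.2 h1)
  · intro hns
    rw [Finset.not_subset] at hns
    obtain ⟨a, ha, ha'⟩ := hns
    have h1 : O.valuation ((coeff a Gu : O) : K) < 1 := by
      refine lt_of_le_of_ne (O.valuation_le_one _) ?_
      rw [Ne, val_eq_one_iff O θ]
      rw [mem_support_iff, coeff_map] at ha'
      exact ha'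
    by_contra hge
    rw [not_lt] at hge
    have h2 : 1 ≤ O.valuation (mon μu τu v / mon μv τv v) ^ D := one_le_pow_of_one_le' hge D
    rw [hpow, ← Finset.mul_prod_erase _ _ ha] at h2
    have h3 : O.valuation ((coeff a Gu : O) : K) ^ n a < 1 := pow_lt_one' h1 (by
      have := hn1 a ha; omega)
    have h4 : ∏ x ∈ V.erase a, O.valuation ((coeff x Gu : O) : K) ^ n x ≤ 1 :=
      Finset.prod_le_one' fun x hx => hle x (Finset.mem_of_mem_erase hx)
    have h5 : O.valuation ((coeff a Gu : O) : K) ^ n a *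
        ∏ x ∈ V.erase a, O.valuation ((coeff x Gu : O) : K) ^ n x < 1 :=
      lt_of_le_of_lt (mul_le_of_le_one_right' h4) h3
    exact absurd h2 (not_le.2 h5)

end val

end Pool.Agent.U8.TR
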