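import Pool.Agent.U8.TR.Spr
import Pool.Agent.U8.TR.Blk
import Pool.Agent.U8.TR.Vl

set_option autoImplicit false
set_option linter.all false

open MvPolynomial

namespace Pool.Agent.U8.TR

/-- dense ordinary reduction of a family of polynomials over a field, above the primes of `S` -/
def DO {K : Type*} [Field K] {ι : Type*} (S : Set ℕ) (m : ι → ℕ)
    (I : ∀ c, Finset (Fin (m c) →₀ ℕ)) (f : ∀ c, MvPolynomial (Fin (m c)) K) : Prop :=
  ∀ A : Subalgebra ℤ K, A.FG → ∀ F : ∀ c, MvPolynomial (Fin (m c)) A,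
    (∀ c, map (algebraMap A K) (F c) = f c) → ∀ a : A, a ≠ 0 →
    ∃ N : ℕ, ∀ p ∈ S, p.Prime → N ≤ p → ∃ M : Ideal A, M.IsMaximal ∧ (p : A) ∈ M ∧ a ∉ M ∧
      ∀ c, (hw p (I c) (map (Ideal.Quotient.mk M) (F c))).det ≠ 0

/-- the basic relation of coefficients after a rescaling -/
lemma mon_coeff {m : ℕ} {K : Type*} [Field K] {p : ℕ} (hp : 0 < p) {F G : MvPolynomial (Fin m) K}
    {μ : K} {τ : Fin m → K} (hG : G = C μ * scale τ F) (u v : Fin m →₀ ℕ) :
    mon μ τ v * coeff (p • u) (monomial v 1 * G ^ (p - 1)) =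
      mon μ τ u ^ p * coeff (p • u) (monomial v 1 * F ^ (p - 1)) := by
  obtain ⟨q, rfl⟩ : ∃ q, p = q + 1 := ⟨p - 1, by omega⟩
  simp only [Nat.add_sub_cancel]
  have h1 : (v.prod fun i e => τ i ^ e) * coeff ((q + 1) • u) (monomial v 1 * G ^ q) =
      μ ^ q * ((u.prod fun i e => τ i ^ e) ^ (q + 1) *
        coeff ((q + 1) • u) (monomial v 1 * F ^ q)) := by
    rw [← prod_smul τ u (q + 1), ← coeff_scale, map_mul, map_pow, scale_monomial, mul_one, hG,
      mul_pow, ← map_pow, ← coeff_C_mul, ← coeff_C_mul]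
    congr 1
    have h3 : (monomial v (v.prod fun i e => τ i ^ e) : MvPolynomial (Fin m) K) =
        C (v.prod fun i e => τ i ^ e) * monomial v 1 := by
      rw [C_mul_monomial, mul_one]
    rw [h3]
    ring
  rw [mon, mon]
  calc μ * (v.prod fun i e => τ i ^ e) * coeff ((q + 1) • u) (monomial v 1 * G ^ q)
      = μ * ((v.prod fun i e => τ i ^ e) * coeff ((q + 1) • u) (monomial v 1 * G ^ q)) := by ring
    _ = _ := by rw [h1]; ring

/-- the determinant of the rescaled matrix over a field -/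
lemma det_rel {m : ℕ} {K : Type*} [Field K] {p : ℕ} (hp : 0 < p) {F : MvPolynomial (Fin m) K}
    (I : Finset (Fin m →₀ ℕ)) (G : (Fin m →₀ ℕ) → MvPolynomial (Fin m) K)
    (μ : (Fin m →₀ ℕ) → K) (τ : (Fin m →₀ ℕ) → Fin m → K)
    (hμ : ∀ u ∈ I, μ u ≠ 0) (hτ : ∀ u ∈ I, ∀ i, τ u i ≠ 0)
    (hG : ∀ u ∈ I, G u = C (μ u) * scale (τ u) F) :
    (Matrix.of fun u v : ↥I => mon (μ u) (τ u) v / mon (μ v) (τ v) v *
      coeff (p • (u : Fin m →₀ ℕ)) (monomial (v : Fin m →₀ ℕ) 1 * G u ^ (p - 1))).det =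
      (∏ u : ↥I, mon (μ u) (τ u) u ^ p) * (hw p I F).det * ∏ v : ↥I, (mon (μ v) (τ v) v)⁻¹ := by
  classical
  rw [← Matrix.det_diagonal, ← Matrix.det_diagonal, ← Matrix.det_mul, ← Matrix.det_mul]
  congr 1
  ext u v
  rw [Matrix.mul_diagonal, Matrix.diagonal_mul]
  simp only [hw, Matrix.of_apply]
  rw [← mon_coeff hp (hG u u.2)]
  rw [div_eq_mul_inv]
  ring

end Pool.Agent.U8.TR
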