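import Pool.Agent.U8.TR.Tra

set_option autoImplicit false
set_option linter.all false

open MvPolynomial

namespace Pool.Agent.U8.TR

theorem prime_charP' {L : Type*} [Field L] {p : ℕ} (hp : p.Prime) (h : ((p : ℕ) : L) = 0) :
    CharP L p := by
  obtain ⟨q, hq⟩ := CharP.exists L
  have h2 : q ∣ p := (CharP.cast_eq_zero_iff L q p).1 h
  rcases (Nat.dvd_prime hp).1 h2 with h3 | h3
  · subst h3
    exact absurd (CharP.char_ne_one L 1 rfl) (by simp)
  · rwa [← h3]

/-- **Transfer**: dense ordinary reduction of the initial forms implies dense ordinary reduction. -/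
theorem transfer {K κ : Type*} [Field K] [Field κ] [CharZero κ] (O : ValuationSubring K)
    (θ : O →+* κ) [IsLocalHom θ] {ι : Type*} [Fintype ι] (S : Set ℕ) (m : ι → ℕ)
    (I : ∀ c, Finset (Fin (m c) →₀ ℕ)) (f : ∀ c, MvPolynomial (Fin (m c)) K)
    (G : ∀ c, (Fin (m c) →₀ ℕ) → MvPolynomial (Fin (m c)) O)
    (μ : ∀ c, (Fin (m c) →₀ ℕ) → K) (τ : ∀ c, (Fin (m c) →₀ ℕ) → Fin (m c) → K)
    (hμ : ∀ c, ∀ u ∈ I c, μ c u ≠ 0) (hτ : ∀ c, ∀ u ∈ I c, ∀ i, τ c u i ≠ 0)
    (hG : ∀ c, ∀ u ∈ I c, map O.subtype (G c u) = C (μ c u) * scale (τ c u) (f c))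
    (hu : ∀ c, ∀ u ∈ I c, ∃ D, 0 < D ∧
      RelInt D (map θ (G c u)).support u)
    (h : DO (ι := Σ c, ↥(I c)) S (fun x => m x.1)
      (fun x => (I x.1).filter fun v => (map θ (G x.1 v)).support =
        (map θ (G x.1 x.2)).support)
      (fun x => map θ (G x.1 x.2))) :
    DO S m I f := by
  classical
  intro A hA F hF a ha
  let sp : ∀ c, (Fin (m c) →₀ ℕ) → Finset (Fin (m c) →₀ ℕ) := fun c u => (map θ (G c u)).support
  -- representatives of the cells
  let rep : ∀ c, Finset (Fin (m c) →₀ ℕ) → (Fin (m c) →₀ ℕ) := fun c W =>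
    if hW : ∃ v ∈ I c, sp c v = W then hW.choose else 0
  let r : ∀ c, (Fin (m c) →₀ ℕ) → (Fin (m c) →₀ ℕ) := fun c u => rep c (sp c u)
  have hr : ∀ c, ∀ u ∈ I c, r c u ∈ I c ∧ sp c (r c u) = sp c u := by
    intro c u hu'
    have hW : ∃ v ∈ I c, sp c v = sp c u := ⟨u, hu', rfl⟩
    have : r c u = hW.choose := dif_pos hW
    rw [this]
    exact hW.choose_spec
  have hreq : ∀ c u v, sp c u = sp c v → r c u = r c v := by
    intro c u v huv
    change rep c (sp c u) = rep c (sp c v)
    rw [huv]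
  let mo : ∀ c, (Fin (m c) →₀ ℕ) → (Fin (m c) →₀ ℕ) → K := fun c u v =>
    mon (μ c (r c u)) (τ c (r c u)) v
  have hmo : ∀ c, ∀ u ∈ I c, ∀ v, mo c u v ≠ 0 := fun c u hu' v =>
    mon_ne (hμ c _ (hr c u hu').1) (hτ c _ (hr c u hu').1) v
  have hrho : ∀ c, ∀ u ∈ I c, ∀ v ∈ I c, O.valuation (mo c u v / mo c v v) ≤ 1 ∧
      (¬ sp c v ⊆ sp c u → O.valuation (mo c u v / mo c v v) < 1) := by
    intro c u hu' v hv'
    obtain ⟨D, hD, hRI⟩ := hu c v hv'
    have h1 : RelInt D (map θ (G c (r c v))).support v := by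
      have : (map θ (G c (r c v))).support = (map θ (G c v)).support := (hr c v hv').2
      rw [this]; exact hRI
    have h2 := rho O θ (hμ c _ (hr c u hu').1) (hτ c _ (hr c u hu').1) (hμ c _ (hr c v hv').1)
      (hτ c _ (hr c v hv').1) (hG c _ (hr c u hu').1) (hG c _ (hr c v hv').1) hD h1
    refine ⟨h2.1, fun hns => h2.2 ?_⟩
    have e1 : (map θ (G c (r c v))).support = sp c v := (hr c v hv').2
    have e2 : (map θ (G c (r c u))).support = sp c u := (hr c u hu').2
    rw [show (map θ (G c (r c v))).support = sp c v from e1,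
      show (map θ (G c (r c u))).support = sp c u from e2]
    exact hns
  have hρ : ∀ c u v, ∃ x : O, u ∈ I c → v ∈ I c → (x : K) = mo c u v / mo c v v := by
    intro c u v
    by_cases h1 : u ∈ I c ∧ v ∈ I c
    · exact ⟨⟨mo c u v / mo c v v,
        (O.valuation_le_one_iff _).1 (hrho c u h1.1 v h1.2).1⟩, fun _ _ => rfl⟩
    · exact ⟨0, fun h2 h3 => absurd ⟨h2, h3⟩ h1⟩
  choose ρ hρ using hρ
  -- the ring `C₁`
  let φ : O →ₐ[ℤ] K := O.subtype.toIntAlgHom
  let θ' : O →ₐ[ℤ] κ := θ.toIntAlgHom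
  have hφ : Function.Injective φ := Subtype.val_injective
  let T : Set O := ⋃ c, ((⋃ u : ↥(I c), ((G c u).coeffs : Set O)) ∪
    Set.range fun x : ↥(I c) × ↥(I c) => ρ c x.1 x.2)
  have hT : T.Finite := Set.finite_iUnion fun c =>
    (Set.finite_iUnion fun u : ↥(I c) => (G c u).coeffs.finite_toSet).union (Set.finite_range _)
  let C₁ : Subalgebra ℤ O := Algebra.adjoin ℤ T
  have hC₁ : C₁.FG := Subalgebra.fg_def.2 ⟨T, hT, rfl⟩
  have hGC : ∀ c u, ∃ P : MvPolynomial (Fin (m c)) C₁, u ∈ I c →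
      map (algebraMap C₁ O) P = G c u := by
    intro c u
    by_cases hu' : u ∈ I c
    · have h1 : G c u ∈ Set.range (map (algebraMap C₁ O) : MvPolynomial (Fin (m c)) C₁ →+* _) := by
        rw [mem_range_map_iff_coeffs_subset]
        intro x hx
        exact ⟨⟨x, Algebra.subset_adjoin (Set.mem_iUnion.2 ⟨c, Or.inl
          (Set.mem_iUnion.2 ⟨⟨u, hu'⟩, hx⟩)⟩)⟩, rfl⟩
      obtain ⟨P, hP⟩ := h1
      exact ⟨P, fun _ => hP⟩
    · exact ⟨0, fun h1 => absurd h1 hu'⟩
  choose GC hGC using hGC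
  have hρC : ∀ c u v, ∃ x : C₁, u ∈ I c → v ∈ I c → (algebraMap C₁ O x) = ρ c u v := by
    intro c u v
    by_cases h1 : u ∈ I c ∧ v ∈ I c
    · exact ⟨⟨ρ c u v, Algebra.subset_adjoin (Set.mem_iUnion.2 ⟨c, Or.inr
        ⟨(⟨u, h1.1⟩, ⟨v, h1.2⟩), rfl⟩⟩)⟩, fun _ _ => rfl⟩
    · exact ⟨0, fun h2 h3 => absurd ⟨h2, h3⟩ h1⟩
  choose ρC hρC using hρC
  let MM : ∀ c, ℕ → (Fin (m c) →₀ ℕ) → (Fin (m c) →₀ ℕ) → C₁ := fun c p u v =>
    ρC c u v * coeff (p • u) (monomial v 1 * GC c (r c u) ^ (p - 1))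
  let dt : ℕ → C₁ := fun p => ∏ c, (Matrix.of fun u v : ↥(I c) => MM c p u v).det
  -- the ring in `κ`
  let A' : Subalgebra ℤ κ := C₁.map θ'
  have hA' : A'.FG := hC₁.map θ'
  let t : C₁ →+* A' := ((θ'.comp C₁.val).codRestrict A' fun x =>
    (Subalgebra.mem_map.2 ⟨x.1, x.2, rfl⟩)).toRingHom
  have ht : (algebraMap A' κ).comp t = θ.comp (algebraMap C₁ O) := rfl
  -- the ring in `K`
  let V : Set K := ⋃ c, ((Set.range fun u : ↥(I c) => mo c u u) ∪
    Set.range fun u : ↥(I c) => (mo c u u)⁻¹)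
  have hV : V.Finite := Set.finite_iUnion fun c => (Set.finite_range _).union (Set.finite_range _)
  let B : Subalgebra ℤ K := A ⊔ (C₁.map φ ⊔ Algebra.adjoin ℤ V)
  have hB : B.FG := hA.sup ((hC₁.map φ).sup (Subalgebra.fg_def.2 ⟨V, hV, rfl⟩))
  have hVB : V ⊆ B := fun x hx =>
    (le_sup_right.trans le_sup_right : Algebra.adjoin ℤ V ≤ B) (Algebra.subset_adjoin hx)
  have hmB : ∀ c (u : ↥(I c)), mo c u u ∈ B := fun c u =>
    hVB (Set.mem_iUnion.2 ⟨c, Or.inl ⟨u, rfl⟩⟩)
  have hmB' : ∀ c (u : ↥(I c)), (mo c u u)⁻¹ ∈ B := fun c u =>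
    hVB (Set.mem_iUnion.2 ⟨c, Or.inr ⟨u, rfl⟩⟩)
  let iA : A →+* B := (Subalgebra.inclusion (le_sup_left : A ≤ B)).toRingHom
  have hiA : Function.Injective iA := Subalgebra.inclusion_injective _
  let e : C₁ →+* B := ((φ.comp C₁.val).codRestrict B fun x =>
    ((le_sup_left.trans le_sup_right : C₁.map φ ≤ B)) (Subalgebra.mem_map.2 ⟨x.1, x.2, rfl⟩)).toRingHom
  have he : Function.Injective e := by
    intro x y hxy
    have h1 : φ (x : O) = φ (y : O) := congrArg (fun z : B => (z : K)) hxy
    exact Subtype.ext (hφ h1)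
  have hBinj : Function.Injective (algebraMap B K) := Subtype.val_injective
  have heB : (algebraMap B K).comp e = (O.subtype).comp (algebraMap C₁ O) := rfl
  have hiAB : (algebraMap B K).comp iA = algebraMap A K := rfl
  -- characteristic zero and finiteness
  have hO0 : CharZero O := by
    refine ⟨fun i j hij => ?_⟩
    have h1 : ((i : ℕ) : κ) = ((j : ℕ) : κ) := by
      have := congrArg θ hij
      simpa using this
    exact_mod_cast h1
  have hK0 : CharZero K := by
    refine ⟨fun i j hij => ?_⟩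
    have h1 : ((i : ℕ) : O) = ((j : ℕ) : O) := by
      apply Subtype.val_injective (p := fun x => x ∈ O)
      simpa using hij
    exact_mod_cast h1
  have ftB : Algebra.FiniteType ℤ B := (Subalgebra.fg_iff_finiteType _).mp hB
  have ftA : Algebra.FiniteType ℤ A := (Subalgebra.fg_iff_finiteType _).mp hA
  have ftC : Algebra.FiniteType ℤ C₁ := (Subalgebra.fg_iff_finiteType _).mp hC₁
  have ftA' : Algebra.FiniteType ℤ A' := (Subalgebra.fg_iff_finiteType _).mp hA'
  have hJac : IsJacobsonRing A := by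
    have := Pool.Agent.Y162.HW.jac_int
    exact isJacobsonRing_of_finiteType (A := ℤ)
  have ha' : iA a ≠ 0 := by rwa [map_ne_zero_iff _ hiA]
  obtain ⟨N, hN⟩ := spread' e he t dt S
    (by
      obtain ⟨N', hN'⟩ := h A' hA' (fun x => map t (GC x.1 x.2)) (fun x => by
        rw [map_map, ht, ← map_map, hGC x.1 x.2 x.2.2]) 1 one_ne_zero
      refine ⟨N', fun p hpS hp hNp => ?_⟩
      obtain ⟨M', hM', hpM', -, hdet⟩ := hN' p hpS hp hNp
      refine ⟨M', hM'.isPrime, hpM', fun hmem => ?_⟩
      letI : Field (A' ⧸ M') := Ideal.Quotient.field M'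
      let π : A' →+* A' ⧸ M' := Ideal.Quotient.mk M'
      have hmem' : π (t (dt p)) = 0 := Ideal.Quotient.eq_zero_iff_mem.2 hmem
      rw [map_prod, map_prod, Finset.prod_eq_zero_iff] at hmem'
      obtain ⟨c, -, hc⟩ := hmem'
      have hc' : (Matrix.of fun u v : ↥(I c) => π (t (MM c p u v))).det = 0 := by
        rw [← hc, RingHom.map_det, RingHom.map_det]
        rfl
      refine det_ne_of_blocks (I c) (fun u v => π (t (MM c p u v))) (sp c)
        (fun u hu' v hv' hne => ?_) (fun u hu' => ?_) hc'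
      · -- the zero pattern
        by_contra hns
        apply hne
        have h1 := (hrho c u hu' v hv').2 hns
        have h2 : θ (ρ c u v) = 0 := by
          rw [← val_lt_one_iff O θ, hρ c u v hu' hv']
          exact h1
        have h3 : t (ρC c u v) = 0 := by
          apply Subtype.val_injective (p := fun x => x ∈ A')
          change θ (algebraMap C₁ O (ρC c u v)) = 0
          rw [hρC c u v hu' hv', h2]
        change π (t (ρC c u v * _)) = 0
        rw [map_mul, h3, zero_mul, map_zero]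
      · -- the diagonal blocks
        have hru := hr c u hu'
        have h1 := hdet ⟨c, ⟨r c u, hru.1⟩⟩
        have hfil : ((I c).filter fun v => (map θ (G c v)).support =
            (map θ (G c (r c u))).support) =
            (I c).filter fun w => sp c w = sp c u := by
          have : (map θ (G c (r c u))).support = sp c u := hru.2
          rw [this]
        have key : ∀ J J' : Finset (Fin (m c) →₀ ℕ), J = J' → ∀ g : MvPolynomial (Fin (m c)) (A' ⧸ M'),
            (hw p J g).det ≠ 0 → (hw p J' g).det ≠ 0 := by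
          rintro J _ rfl g h2; exact h2
        have h1' := key _ _ hfil _ h1
        intro h0
        apply h1'
        rw [← h0]
        congr 1
        ext w v
        have hw := Finset.mem_filter.1 w.2
        have hv := Finset.mem_filter.1 v.2
        have hrw : r c w = r c u := hreq c _ _ hw.2
        have hrv : r c v = r c u := hreq c _ _ hv.2
        have hone : ρC c w v = 1 := by
          have h2 : (algebraMap C₁ O) (ρC c w v) = 1 := by
            rw [hρC c w v hw.1 hv.1]
            apply Subtype.val_injective (p := fun x => x ∈ O)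
            change (ρ c w v : K) = 1
            rw [hρ c w v hw.1 hv.1]
            have h3 : mo c w v = mo c v v := by
              change mon (μ c (r c w)) (τ c (r c w)) v = mon (μ c (r c v)) (τ c (r c v)) v
              rw [hrw, hrv]
            rw [h3, div_self (hmo c v hv.1 v)]
          exact Subtype.val_injective h2
        change coeff _ (monomial _ 1 * (map π (map t (GC c (r c u)))) ^ (p - 1)) =
          π (t (ρC c w v * coeff _ (monomial _ 1 * GC c (r c w) ^ (p - 1))))
        rw [hone, one_mul, hrw, ← coeff_map, ← coeff_map, map_mul, map_mul, map_pow, map_pow,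
          map_monomial, map_monomial, t.map_one, π.map_one]) (iA a) ha'
  refine ⟨N, fun p hpS hp hNp => ?_⟩
  obtain ⟨MB, hMB, hpM, haM, hfM⟩ := hN p hpS hp hNp
  have hMBp : MB.IsPrime := hMB.isPrime
  have hdet : ∀ c, iA (hw p (I c) (F c)).det ∉ MB := by
    intro c hc
    apply hfM
    rw [map_prod]
    refine MB.mem_of_dvd (Finset.dvd_prod_of_mem _ (Finset.mem_univ c)) ?_
    let z : B := (∏ u : ↥(I c), (⟨mo c u u, hmB c u⟩ : B) ^ p) *
      ∏ v : ↥(I c), (⟨(mo c v v)⁻¹, hmB' c v⟩ : B)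
    have h1 : e (Matrix.of fun u v : ↥(I c) => MM c p u v).det =
        z * iA (hw p (I c) (F c)).det := by
      apply hBinj
      rw [map_mul (algebraMap B K)]
      have h2 : (algebraMap B K) (iA (hw p (I c) (F c)).det) = (hw p (I c) (f c)).det := by
        rw [← hF c, hw_det_map]; rfl
      have h3 : (algebraMap B K) z = (∏ u : ↥(I c), mo c u u ^ p) * ∏ v : ↥(I c), (mo c v v)⁻¹ := by
        simp only [z, map_mul, map_prod, map_pow]
        rfl
      have h4 := det_rel (K := K) hp.pos (F := f c) (I c)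
        (fun u => map O.subtype (G c (r c u))) (fun u => μ c (r c u)) (fun u => τ c (r c u))
        (fun u hu' => hμ c _ (hr c u hu').1) (fun u hu' => hτ c _ (hr c u hu').1)
        (fun u hu' => hG c _ (hr c u hu').1)
      have h5 : (algebraMap B K) (e (Matrix.of fun u v : ↥(I c) => MM c p u v).det) =
          (Matrix.of fun u v : ↥(I c) => mo c u v / mo c v v *
            coeff (p • (u : Fin (m c) →₀ ℕ)) (monomial (v : Fin (m c) →₀ ℕ) 1 *
              (map O.subtype (G c (r c u))) ^ (p - 1))).det := by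
        change ((algebraMap B K).comp e) _ = _
        rw [heB, RingHom.map_det]
        congr 1
        ext u v
        change O.subtype (algebraMap C₁ O (ρC c u v * coeff _ (monomial _ 1 *
          GC c (r c u) ^ (p - 1)))) = mo c u v / mo c v v * _
        rw [map_mul, map_mul, hρC c u v u.2 v.2, ← coeff_map, map_mul, map_pow,
          hGC c (r c u) (hr c u u.2).1, map_monomial, (algebraMap C₁ O).map_one, ← coeff_map,
          map_mul, map_pow, map_monomial, O.subtype.map_one]
        congr 1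
        exact hρ c u v u.2 v.2
      rw [h5, h2, h3]
      refine h4.trans ?_
      ring
    rw [h1]
    exact MB.mul_mem_left _ hc
  -- back to `A`
  let P : Ideal A := MB.comap iA
  have hP : P.IsPrime := Ideal.comap_isPrime iA MB
  have hprod : a * ∏ c, (hw p (I c) (F c)).det ∉ P := by
    intro hmem
    rcases hP.mem_or_mem hmem with h1 | h1
    · exact haM h1
    · obtain ⟨c, _, hc⟩ := (hP.prod_mem_iff).1 h1
      exact hdet c hc
  have hjac : P.jacobson = P := isJacobsonRing_iff_prime_eq.mp hJac P hP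
  rw [← hjac, Ideal.jacobson, Submodule.mem_sInf] at hprod
  push Not at hprod
  obtain ⟨M, ⟨hPM, hM⟩, hMa⟩ := hprod
  refine ⟨M, hM, hPM ?_, fun h1 => hMa (Ideal.mul_mem_right _ M h1), fun c hc => ?_⟩
  · change iA (p : A) ∈ MB
    rw [map_natCast]; exact hpM
  · apply hMa
    refine Ideal.mul_mem_left M _ (Ideal.mem_of_dvd M (Finset.dvd_prod_of_mem _ (Finset.mem_univ c)) ?_)
    rw [hw_det_map] at hc
    exact Ideal.Quotient.eq_zero_iff_mem.1 hc

end Pool.Agent.U8.TR
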